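import Pool.Agent.Lib.ISO.Jump

/-!
# The isotherm of hard spheres in high dimension: spheres of any radius
-/

set_option autoImplicit false

namespace Pool.Agent.Iso

open MeasureTheory Filter Topology Pool.Agent.SquareWellGas Pool.Agent.KacGas Pool.Agent.VdwGas
open Pool.Agent.HdGas

noncomputable section

theorem scale {d : ℕ} (hd : 1 ≤ d) {a lam ℓ : ℝ} (ha : 0 < a) (hlam : 0 < lam) (hℓ : 0 < ℓ) :
    ball d a * Nb d a lam ℓ / ℓ ^ d =
      bv d * nn d (Real.log (lam * (2 * a) ^ d)) (ℓ / (2 * a)) := by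
  rw [meanz_of int_row d hd a lam ℓ ha hlam.le hℓ, ball_eq d ha]
  unfold nn
  rw [Real.exp_log (by positivity), div_pow]
  field_simp

theorem ball_pos {d : ℕ} (hd : 1 ≤ d) {a : ℝ} (ha : 0 < a) : 0 < ball d a := by
  rw [ball_eq d ha]
  have := bv_pos hd
  positivity

theorem log_ball {d : ℕ} (hd : 1 ≤ d) {a lam : ℝ} (ha : 0 < a) (hlam : 0 < lam) :
    Real.log (lam * (2 * a) ^ d) + Real.log (bv d) = Real.log (lam * ball d a) := by
  have hb := bv_pos hd
  rw [← Real.log_mul (by positivity) hb.ne', ball_eq d ha]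
  congr 1
  ring

/-- The density at large activities. -/
theorem high_a {κ : ℝ} (hκ : 0 ≤ κ) (hC : CELLS κ) {s : ℝ} (hs : 0 < s) :
    ∃ d0 : ℕ, ∀ d : ℕ, d0 ≤ d → ∀ a : ℝ, 0 < a → ∀ lam : ℝ, 0 < lam →
      (κ + s) * (d * Real.log d) ≤ Real.log (lam * ball d a) →
        ∀ᶠ ℓ : ℝ in atTop, (d : ℝ) ^ (2 - s) ≤ ball d a * Nb d a lam ℓ / ℓ ^ d := by
  obtain ⟨d0, h⟩ := high hκ hC hs
  refine ⟨max d0 1, fun d hd a ha lam hlam hw => ?_⟩
  have hd1 : 1 ≤ d := le_of_max_le_right hd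
  rw [← log_ball hd1 ha hlam] at hw
  have h1 := h d (le_of_max_le_left hd) _ hw
  have h2 : Tendsto (fun ℓ : ℝ => ℓ / (2 * a)) atTop atTop :=
    tendsto_id.atTop_div_const (by positivity)
  filter_upwards [h2.eventually h1, eventually_gt_atTop 0] with ℓ h3 h4
  rw [scale hd1 ha hlam h4]
  exact h3

/-- The jump. -/
theorem jump_a {κ : ℝ} (hκ : 0 ≤ κ) (hC : CELLS κ) {θ s : ℝ} (hθ : 0 < θ)
    (hθ1 : θ < (1 - Real.log 2) / 2) (hs : 0 < s) :
    ∃ d0 : ℕ, ∀ d : ℕ, d0 ≤ d → ∀ a : ℝ, 0 < a → ∀ η : ℝ, 0 < η → η ≤ 1 →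
      ∃ lam1 lam2 : ℝ, 0 < lam1 ∧ lam1 < lam2 ∧
      θ * d ≤ Real.log (lam1 * ball d a) ∧
      Real.log (lam2 * ball d a) ≤ (1 + η) * Real.log (lam1 * ball d a) ∧
      Real.log (lam2 * ball d a) ≤ (κ + s) * (d * Real.log d) ∧
      ∀ᶠ ℓ : ℝ in atTop, KK d s η * Nb d a lam1 ℓ ≤ Nb d a lam2 ℓ := by
  obtain ⟨s', hs'⟩ : ∃ s', s' = min s 1 := ⟨_, rfl⟩
  have hs0 : 0 < s' := by rw [hs']; exact lt_min hs one_pos
  have hs1 : s' ≤ 1 := by rw [hs']; exact min_le_right _ _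
  have hss : s' ≤ s := by rw [hs']; exact min_le_left _ _
  obtain ⟨d0, h⟩ := jump1 hκ hC hθ hθ1 hs0 hs1
  refine ⟨d0, fun d hd a ha η hη hη1 => ?_⟩
  obtain ⟨hd1, hLL, h'⟩ := h d hd
  obtain ⟨w1, w2, k1, k2, k3, k4, k5⟩ := h' η hη hη1
  have hB := ball_pos hd1 ha
  have hb := bv_pos hd1
  have hdr : (1 : ℝ) ≤ d := by exact_mod_cast hd1
  have hlogd : 0 ≤ Real.log (d : ℝ) := Real.log_nonneg hdr
  have hD : 0 ≤ (d : ℝ) * Real.log d := mul_nonneg (by linarith) hlogd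
  have e : ∀ t : ℝ, 0 < Real.exp t / ball d a ∧
      Real.log (Real.exp t / ball d a * ball d a) = t ∧
      Real.log (Real.exp t / ball d a * (2 * a) ^ d) = t - Real.log (bv d) := by
    intro t
    have h1 : 0 < Real.exp t / ball d a := div_pos (Real.exp_pos _) hB
    have h2 : Real.log (Real.exp t / ball d a * ball d a) = t := by
      rw [div_mul_cancel₀ _ hB.ne', Real.log_exp]
    refine ⟨h1, h2, ?_⟩
    rw [← log_ball hd1 ha h1] at h2
    linarith
  obtain ⟨a1, a2, a3⟩ := e w1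
  obtain ⟨b1, b2, b3⟩ := e w2
  refine ⟨Real.exp w1 / ball d a, Real.exp w2 / ball d a, a1, ?_, ?_, ?_, ?_, ?_⟩
  · exact div_lt_div_of_pos_right (Real.exp_lt_exp.2 k2) hB
  · rw [a2]
    exact k1
  · rw [a2, b2]
    exact k3
  · rw [b2]
    exact k4.trans (mul_le_mul_of_nonneg_right (by linarith) hD)
  · have h2 : Tendsto (fun ℓ : ℝ => ℓ / (2 * a)) atTop atTop :=
      tendsto_id.atTop_div_const (by positivity)
    filter_upwards [h2.eventually k5, eventually_gt_atTop 0] with ℓ h3 h4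
    have h5 := scale hd1 ha a1 h4
    have h6 := scale hd1 ha b1 h4
    rw [a3] at h5
    rw [b3] at h6
    have hV : 0 < ℓ ^ d := pow_pos h4 d
    have h7 : KK d s' η * (ball d a * Nb d a (Real.exp w1 / ball d a) ℓ / ℓ ^ d) ≤
        ball d a * Nb d a (Real.exp w2 / ball d a) ℓ / ℓ ^ d := by
      rw [h5, h6]
      calc KK d s' η * (bv d * nn d (w1 - Real.log (bv d)) (ℓ / (2 * a))) =
          bv d * (KK d s' η * nn d (w1 - Real.log (bv d)) (ℓ / (2 * a))) := by ring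
        _ ≤ _ := mul_le_mul_of_nonneg_left h3 hb.le
    have h8 : 0 ≤ Nb d a (Real.exp w1 / ball d a) ℓ := by
      rw [meanz_of int_row d hd1 a _ ℓ ha a1.le h4]
      unfold ex
      refine div_nonneg (integral_nonneg fun ω => ?_) ?_
      · positivity
      · unfold Xi
        positivity
    have h9 : KK d s' η * Nb d a (Real.exp w1 / ball d a) ℓ ≤
        Nb d a (Real.exp w2 / ball d a) ℓ := by
      have h10 : (ball d a / ℓ ^ d) * (KK d s' η * Nb d a (Real.exp w1 / ball d a) ℓ) ≤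
          (ball d a / ℓ ^ d) * Nb d a (Real.exp w2 / ball d a) ℓ := by
        calc (ball d a / ℓ ^ d) * (KK d s' η * Nb d a (Real.exp w1 / ball d a) ℓ) =
            KK d s' η * (ball d a * Nb d a (Real.exp w1 / ball d a) ℓ / ℓ ^ d) := by ring
          _ ≤ _ := h7
          _ = _ := by ring
      exact le_of_mul_le_mul_left h10 (by positivity)
    have h11 : KK d s η ≤ KK d s' η := by
      unfold KK
      refine Real.rpow_le_rpow_of_exponent_le (by linarith) ?_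
      exact div_le_div_of_nonneg_right (mul_le_mul_of_nonneg_right (by linarith) hlogd) hLL.le
    exact (mul_le_mul_of_nonneg_right h11 h8).trans h9

end

end Pool.Agent.Iso
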