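import Pool.Agent.Lib.NT.Main4
import Pool.Agent.Lib.KLG.Rows

/-!
# The isotherm of hard spheres in high dimension: density at high activity
-/

set_option autoImplicit false

namespace Pool.Agent.Iso

open MeasureTheory Filter Topology Pool.Agent.SquareWellGas Pool.Agent.KacGas Pool.Agent.VdwGas
open Pool.Agent.HdGas

noncomputable section

/-- Mean number per volume, for spheres of diameter one, at the chemical potential `μ`. -/
def nn (d : ℕ) (μ ℓ : ℝ) : ℝ :=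
  ex volume (Cb d) (Real.exp μ) (Box d ℓ) (fun ω => (ω.1 : ℝ)) / ℓ ^ d

/-- Pressure in a box. -/
def pp (d : ℕ) (μ ℓ : ℝ) : ℝ := Real.log (Xi volume (Cb d) (Real.exp μ) (Box d ℓ)) / ℓ ^ d

/-- Slope of the pressure between two chemical potentials. -/
def qq (d : ℕ) (μ1 μ2 ℓ : ℝ) : ℝ := (pp d μ2 ℓ - pp d μ1 ℓ) / (μ2 - μ1)

theorem nn_le {d : ℕ} (hd : 1 ≤ d) {μ1 μ2 ℓ : ℝ} (h : μ1 < μ2) (hℓ : 0 < ℓ) :
    nn d μ1 ℓ ≤ qq d μ1 μ2 ℓ := by
  have hgeo := geob_of d hd ℓ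
  have h2 := jen_of bas _ volume (Cb d) (Box d ℓ) hgeo.meas hgeo.measL hgeo.fin μ1 (μ2 - μ1)
  rw [add_sub_cancel] at h2
  have hV : 0 < ℓ ^ d := pow_pos hℓ d
  have hh : 0 < μ2 - μ1 := sub_pos.2 h
  unfold nn qq pp
  rw [← sub_div, div_div, div_le_div_iff₀ hV (by positivity)]
  nlinarith

theorem le_nn {d : ℕ} (hd : 1 ≤ d) {μ1 μ2 ℓ : ℝ} (h : μ1 < μ2) (hℓ : 0 < ℓ) :
    qq d μ1 μ2 ℓ ≤ nn d μ2 ℓ := by
  have hgeo := geob_of d hd ℓ
  have h2 := jen_of bas _ volume (Cb d) (Box d ℓ) hgeo.meas hgeo.measL hgeo.fin μ2 (μ1 - μ2)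
  rw [add_sub_cancel] at h2
  have hV : 0 < ℓ ^ d := pow_pos hℓ d
  have hh : 0 < μ2 - μ1 := sub_pos.2 h
  unfold nn qq pp
  rw [← sub_div, div_div, div_le_div_iff₀ (by positivity) hV]
  nlinarith

theorem qq_tendsto {d : ℕ} {P : ℝ → ℝ} (hP : IsPr d P) (μ1 μ2 : ℝ) :
    Tendsto (qq d μ1 μ2) atTop (𝓝 ((P μ2 - P μ1) / (μ2 - μ1))) :=
  ((hP μ2).sub (hP μ1)).div_const _

/-- Spheres in the cells of dense packings, with the entropy `-κ d log d` per sphere. -/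
def CELLS (κ : ℝ) : Prop := ∀ s : ℝ, 0 < s → ∃ d0 : ℕ, ∀ d : ℕ, d0 ≤ d → ∀ a : ℝ, 0 < a →
  ∀ (f : ℝ → ℝ) (ρ₀ : ℝ), IsF d a (fun _ => 0) f ρ₀ → ∀ ρ : ℝ, 0 < ρ →
    ρ * (KLG.kap d * (2 * a) ^ d) ≤ (d : ℝ) ^ (2 - s) →
      ρ < ρ₀ ∧ ρ * (Real.log (KLG.kap d * (2 * a) ^ d) - (κ + s) * (d * Real.log d)) ≤ f ρ

theorem bv_pos {d : ℕ} (hd : 1 ≤ d) : 0 < bv d := (geob_of d hd 1).b_pos

/-- The density is large at large activities. -/
theorem high1 {κ : ℝ} (hκ : 0 ≤ κ) (hC : CELLS κ) {s : ℝ} (hs : 0 < s) (hs1 : s ≤ 1) :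
    ∃ d0 : ℕ, ∀ d : ℕ, d0 ≤ d → ∀ μ : ℝ,
      (κ + s) * (d * Real.log d) ≤ μ + Real.log (bv d) →
        ∀ᶠ ℓ : ℝ in atTop, (d : ℝ) ^ (2 - s) ≤ bv d * nn d μ ℓ := by
  obtain ⟨d1, h1⟩ := hC (s / 2) (by positivity)
  have e1 : ∀ᶠ d : ℕ in atTop, 6 * (κ + s) / s ≤ (d : ℝ) ^ (s / 2) :=
    ((tendsto_rpow_atTop (by positivity : 0 < s / 2)).comp
      tendsto_natCast_atTop_atTop).eventually_ge_atTop _
  have e2 : ∀ᶠ d : ℕ in atTop, 1 / s ≤ Real.log (d : ℝ) :=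
    (Real.tendsto_log_atTop.comp tendsto_natCast_atTop_atTop).eventually_ge_atTop _
  obtain ⟨d2, h2⟩ := eventually_atTop.1 (e1.and (e2.and (eventually_ge_atTop 1)))
  refine ⟨max d1 d2, fun d hd μ hμ => ?_⟩
  obtain ⟨k1, k2, hd1⟩ := h2 d (le_of_max_le_right hd)
  have hdr : (1 : ℝ) ≤ d := by exact_mod_cast hd1
  obtain ⟨f, r, hF, -⟩ := Vdw.exists_F (d := d) hd1
  obtain ⟨P, hP, hP1, hP2⟩ := thermo_row d hd1 f r hF
  have hb := bv_pos hd1
  obtain ⟨b, hbe⟩ : ∃ b, b = bv d := ⟨_, rfl⟩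
  rw [← hbe] at hb hμ ⊢
  have hkap : KLG.kap d * (2 * (1 / 2 : ℝ)) ^ d = b := by
    rw [hbe, show (2 * (1 / 2 : ℝ)) = 1 by norm_num, one_pow, mul_one]
    rfl
  obtain ⟨x, hx⟩ : ∃ x, x = (d : ℝ) ^ (2 - s / 2) := ⟨_, rfl⟩
  have hx0 : 0 < x := by rw [hx]; exact Real.rpow_pos_of_pos (by linarith) _
  obtain ⟨j1, j2⟩ := h1 d (le_of_max_le_left hd) (1 / 2) (by norm_num) f r hF (x / b)
    (by positivity) (by rw [hkap, div_mul_cancel₀ _ hb.ne', hx])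
  rw [hkap] at j2
  obtain ⟨w, hw⟩ : ∃ w, w = μ + Real.log b := ⟨_, rfl⟩
  obtain ⟨D, hD⟩ : ∃ D, D = d * Real.log d := ⟨_, rfl⟩
  rw [← hw, ← hD] at hμ
  rw [← hD] at j2
  have hDs : 1 ≤ s * D := by
    rw [hD]
    have : 1 ≤ s * Real.log d := by
      rw [div_le_iff₀ hs] at k2
      linarith
    nlinarith
  have hD0 : 0 < D := by
    by_contra h
    push Not at h
    nlinarith
  have hw1 : 1 ≤ w := by nlinarith
  -- the pressure
  have hPμ := (hP2 μ).1 (x / b) ⟨by positivity, j1⟩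
  have hP0 := (hP1 (-Real.log b)).2
  rw [Real.exp_neg, Real.exp_log hb] at hP0
  have hb1 : b * b⁻¹ = 1 := mul_inv_cancel₀ hb.ne'
  have hA : x * (w - (κ + s / 2) * D) ≤ b * P μ := by
    have h3 : x / b * (Real.log b - (κ + s / 2) * D) + μ * (x / b) ≤ P μ := by linarith
    have h4 := mul_le_mul_of_nonneg_left h3 hb.le
    have h5 : b * (x / b * (Real.log b - (κ + s / 2) * D) + μ * (x / b)) =
        x * (w - (κ + s / 2) * D) := by
      rw [hw]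
      field_simp
      ring
    linarith
  have hB : b * P (-Real.log b) ≤ 1 := by
    have := mul_le_mul_of_nonneg_left hP0 hb.le
    linarith
  obtain ⟨y, hy⟩ : ∃ y, y = (d : ℝ) ^ (2 - s) := ⟨_, rfl⟩
  have hy1 : 1 ≤ y := by
    rw [hy]
    exact Real.one_le_rpow hdr (by linarith)
  have hxy : x = y * (d : ℝ) ^ (s / 2) := by
    rw [hx, hy, ← Real.rpow_add (by linarith)]
    congr 1
    ring
  have hks : 0 < κ + s := by linarith
  have hx3 : 3 * y * (κ + s) ≤ x * (s / 2) := by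
    rw [hxy]
    rw [div_le_iff₀ hs] at k1
    nlinarith
  have hw2 : w * (s / 2) ≤ (κ + s) * (w - (κ + s / 2) * D) := by
    nlinarith
  have hC2 : 3 * y * w ≤ x * (w - (κ + s / 2) * D) := by
    have h6 : 3 * y * w * (κ + s) ≤ x * (w - (κ + s / 2) * D) * (κ + s) := by
      calc 3 * y * w * (κ + s) = w * (3 * y * (κ + s)) := by ring
        _ ≤ w * (x * (s / 2)) := mul_le_mul_of_nonneg_left hx3 (by linarith)
        _ = x * (w * (s / 2)) := by ring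
        _ ≤ x * ((κ + s) * (w - (κ + s / 2) * D)) := mul_le_mul_of_nonneg_left hw2 hx0.le
        _ = _ := by ring
    exact le_of_mul_le_mul_right h6 hks
  have hlim : y < b * ((P μ - P (-Real.log b)) / (μ - -Real.log b)) := by
    have h7 : μ - -Real.log b = w := by rw [hw]; ring
    rw [h7, ← mul_div_assoc, lt_div_iff₀ (by linarith)]
    nlinarith
  have hlt : -Real.log b < μ := by
    have : 0 < w := by linarith
    rw [hw] at this
    linarith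
  have ht := ((qq_tendsto hP (-Real.log b) μ).const_mul b).eventually (lt_mem_nhds hlim)
  filter_upwards [ht, eventually_gt_atTop 0] with ℓ h8 h9
  have h10 := mul_le_mul_of_nonneg_left (le_nn hd1 hlt h9) hb.le
  rw [← hy]
  linarith

/-- The density is large at large activities. -/
theorem high {κ : ℝ} (hκ : 0 ≤ κ) (hC : CELLS κ) {s : ℝ} (hs : 0 < s) :
    ∃ d0 : ℕ, ∀ d : ℕ, d0 ≤ d → ∀ μ : ℝ,
      (κ + s) * (d * Real.log d) ≤ μ + Real.log (bv d) →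
        ∀ᶠ ℓ : ℝ in atTop, (d : ℝ) ^ (2 - s) ≤ bv d * nn d μ ℓ := by
  obtain ⟨d0, h⟩ := high1 hκ hC (s := min s 1) (lt_min hs one_pos) (min_le_right _ _)
  refine ⟨max d0 1, fun d hd μ hμ => ?_⟩
  have hd1 : 1 ≤ d := le_of_max_le_right hd
  have hdr : (1 : ℝ) ≤ d := by exact_mod_cast hd1
  have hD : 0 ≤ (d : ℝ) * Real.log d := mul_nonneg (by linarith) (Real.log_nonneg hdr)
  have h1 : (κ + min s 1) * (d * Real.log d) ≤ (κ + s) * (d * Real.log d) :=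
    mul_le_mul_of_nonneg_right (by linarith [min_le_left s 1]) hD
  filter_upwards [h d (le_of_max_le_left hd) μ (h1.trans hμ)] with ℓ hℓ
  exact (Real.rpow_le_rpow_of_exponent_le hdr (by linarith [min_le_left s 1])).trans hℓ

/-- Upper bound for the density at low activities. -/
theorem low {θ : ℝ} (h0 : 0 < θ) (h1 : θ < (1 - Real.log 2) / 2) : ∃ d0 : ℕ, ∀ d : ℕ, d0 ≤ d →
    ∀ μ : ℝ, 1 ≤ μ + Real.log (bv d) → μ + Real.log (bv d) ≤ θ * d →
      ∀ᶠ ℓ : ℝ in atTop, bv d * nn d μ ℓ ≤ μ + Real.log (bv d) + 2 := by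
  obtain ⟨d1, hl⟩ := loc4_row θ h0 h1
  obtain ⟨θ2, h2, h3⟩ := exists_between h1
  obtain ⟨d2, hn⟩ := num4_of θ θ2 1 h0 h2 h3 one_pos
  refine ⟨max d1 d2, fun d hd μ hμ1 hμ2 => ?_⟩
  obtain ⟨hd1, hloc⟩ := hl d (le_of_max_le_left hd)
  obtain ⟨-, -, -, hk, -⟩ := hn d (le_of_max_le_right hd)
  have hb := bv_pos hd1
  obtain ⟨c, hc⟩ : ∃ c, c = μ + Real.log (bv d) := ⟨_, rfl⟩
  rw [← hc] at hμ1 hμ2 ⊢
  have hkap : 0 ≤ kap d := by unfold kap; positivity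
  -- a larger activity
  have hμ' : μ ≤ μ + Real.log c := by
    have := Real.log_nonneg hμ1
    linarith
  have hce : c * Real.exp c = Real.exp (μ + Real.log c) * bv d := by
    have h4 : Real.exp c = Real.exp μ * bv d := by
      rw [hc, Real.exp_add, Real.exp_log hb]
    rw [Real.exp_add, Real.exp_log (by linarith), h4]
    ring
  have h5 := mean4_of int_row d hd1 (Real.exp (μ + Real.log c)) c (40 * (c ^ 3 * kap d))
    (Real.exp_pos _).le (by linarith) (by positivity)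
    (hloc (Real.exp (μ + Real.log c)) c (Real.exp_pos _).le (by linarith) hce hμ2) (1 / 2)
    (by norm_num)
  have h6 : 40 * (c ^ 3 * kap d) ≤ 1 := by
    have h7 : c ^ 3 ≤ (θ * d + 1) ^ 3 := pow_le_pow_left₀ (by linarith) (by linarith) 3
    have h8 : c ^ 3 * kap d ≤ (θ * d + 1) ^ 3 * kap d := mul_le_mul_of_nonneg_right h7 hkap
    linarith
  filter_upwards [h5, eventually_gt_atTop 0] with ℓ h9 h10
  have h11 : bv d * nn d (μ + Real.log c) ℓ ≤ c + 2 := by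
    have h12 := (abs_le.1 h9).2
    unfold nn
    rw [← mul_div_assoc]
    linarith
  rcases hμ'.lt_or_eq with h | h
  · have h13 := mul_le_mul_of_nonneg_left ((nn_le hd1 h h10).trans (le_nn hd1 h h10)) hb.le
    linarith
  · rw [h]
    exact h11

end

end Pool.Agent.Iso
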