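import Pool.Agent.Lib.ISO.Iso

/-!
# The isotherm of hard spheres in high dimension: the jump
-/

set_option autoImplicit false

namespace Pool.Agent.Iso

open MeasureTheory Filter Topology Pool.Agent.SquareWellGas Pool.Agent.KacGas Pool.Agent.VdwGas
open Pool.Agent.HdGas

noncomputable section

/-- The factor of the jump. -/
def KK (d : ℕ) (s η : ℝ) : ℝ := (1 + η) ^ ((1 - s) * Real.log d / Real.log (Real.log d))

theorem KK_pos {d : ℕ} {s η : ℝ} (hη : 0 < η) : 0 < KK d s η :=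
  Real.rpow_pos_of_pos (by linarith) _

/-- Powers of the logarithm. -/
theorem num_jump {θ θ2 κ s s' : ℝ} (hθ : 0 < θ) (hθ2 : θ < θ2) (hκ : 0 ≤ κ) (hs : 0 < s)
    (hs1 : s ≤ 1) (hs' : 0 < s') (hs4 : s' ≤ s / 4) :
    ∃ d0 : ℕ, ∀ d : ℕ, d0 ≤ d → 1 ≤ d ∧ θ * d ≤ (κ + s / 2) * (d * Real.log d) ∧
      0 < Real.log (Real.log d) ∧
      ∀ η : ℝ, 0 < η → η ≤ 1 → ∃ m : ℕ,
        (κ + s / 2) * (d * Real.log d) ≤ θ * d * ((1 + η) ^ (1 - s')) ^ m ∧
        KK d s η ^ m * (θ2 * d + 2) < (d : ℝ) ^ (2 - s / 2) := by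
  have hks : 0 < κ + s / 2 := by linarith
  obtain ⟨C, hC⟩ : ∃ C, C = (κ + s / 2) / θ := ⟨_, rfl⟩
  have hC0 : 0 < C := by rw [hC]; positivity
  have hθC : θ * C = κ + s / 2 := by
    rw [hC]
    field_simp
  have cast := tendsto_natCast_atTop_atTop (R := ℝ)
  have hLL : Tendsto (fun d : ℕ => Real.log (Real.log (d : ℝ))) atTop atTop :=
    Real.tendsto_log_atTop.comp (Real.tendsto_log_atTop.comp cast)
  have e1 : ∀ᶠ d : ℕ in atTop, 16 / s * (1 + |Real.log C|) ≤ Real.log (Real.log (d : ℝ)) :=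
    hLL.eventually_ge_atTop _
  have e2 : ∀ᶠ d : ℕ in atTop, 1 / C + 1 ≤ Real.log (d : ℝ) :=
    (Real.tendsto_log_atTop.comp cast).eventually_ge_atTop _
  have e3 : ∀ᶠ d : ℕ in atTop, θ2 + 3 ≤ (d : ℝ) ^ (s / 8) :=
    ((tendsto_rpow_atTop (by positivity : 0 < s / 8)).comp cast).eventually_ge_atTop _
  obtain ⟨d0, h0⟩ := eventually_atTop.1 (e1.and (e2.and (e3.and (eventually_ge_atTop 1))))
  refine ⟨d0, fun d hd => ?_⟩
  obtain ⟨k1, k2, k3, hd1⟩ := h0 d hd
  have hdr : (1 : ℝ) ≤ d := by exact_mod_cast hd1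
  have hdp : (0 : ℝ) < d := by linarith
  unfold KK
  obtain ⟨L, hL⟩ : ∃ L, L = Real.log (d : ℝ) := ⟨_, rfl⟩
  rw [← hL] at k1 k2 ⊢
  obtain ⟨l, hl⟩ : ∃ l, l = Real.log L := ⟨_, rfl⟩
  rw [← hl] at k1 ⊢
  have hL1 : 1 ≤ L := by
    have : 0 < 1 / C := by positivity
    linarith
  have hL0 : 0 < L := by linarith
  have hl0 : 0 < l := by
    have : 0 < 16 / s * (1 + |Real.log C|) := by positivity
    linarith
  have hA1 : 1 ≤ C * L := by
    have h1 : 1 / C ≤ L := by linarith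
    rw [div_le_iff₀ hC0] at h1
    linarith
  have hkl : 1 + |Real.log C| ≤ s / 16 * l := by
    have h1 := mul_le_mul_of_nonneg_left k1 (by positivity : 0 ≤ s / 16)
    have h2 : s / 16 * (16 / s * (1 + |Real.log C|)) = 1 + |Real.log C| := by
      field_simp
    linarith
  have hT : (κ + s / 2) * (d * L) = θ * d * (C * L) := by
    rw [← hθC]
    ring
  refine ⟨hd1, ?_, hl0, fun η hη hη1 => ?_⟩
  · rw [hT]
    exact le_mul_of_one_le_right (by positivity) hA1
  have hR1 : 1 < 1 + η := by linarith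
  have hlR : 0 < Real.log (1 + η) := Real.log_pos hR1
  have hlR1 : Real.log (1 + η) ≤ 1 := by
    have := Real.log_le_sub_one_of_pos (by linarith : 0 < 1 + η)
    linarith
  have hs'1 : 0 < 1 - s' := by linarith
  obtain ⟨r, hr⟩ : ∃ r, r = (1 + η) ^ (1 - s') := ⟨_, rfl⟩
  have hr0 : 0 < r := by rw [hr]; exact Real.rpow_pos_of_pos (by linarith) _
  have hlr : Real.log r = (1 - s') * Real.log (1 + η) := by
    rw [hr, Real.log_rpow (by linarith)]
  have hlr0 : 0 < Real.log r := by rw [hlr]; positivity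
  have hlA0 : 0 ≤ Real.log (C * L) := Real.log_nonneg hA1
  have hlA : Real.log (C * L) ≤ (1 + s / 16) * l := by
    rw [Real.log_mul hC0.ne' hL0.ne', ← hl]
    have := le_abs_self (Real.log C)
    linarith
  obtain ⟨m, hm⟩ : ∃ m, m = ⌈Real.log (C * L) / Real.log r⌉₊ := ⟨_, rfl⟩
  have hm1 : Real.log (C * L) / Real.log r ≤ m := by
    rw [hm]
    exact Nat.le_ceil _
  have hm2 : (m : ℝ) < Real.log (C * L) / Real.log r + 1 := by
    rw [hm]
    exact Nat.ceil_lt_add_one (by positivity)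
  refine ⟨m, ?_, ?_⟩
  · rw [hT, ← hr]
    refine mul_le_mul_of_nonneg_left ?_ (by positivity)
    rw [← Real.log_le_log_iff (by positivity) (by positivity), Real.log_pow]
    rwa [div_le_iff₀ hlr0] at hm1
  · have hK : ((1 + η) ^ ((1 - s) * L / l)) ^ m ≤ (d : ℝ) ^ (1 - 5 * s / 8) := by
      have hKp : 0 < (1 + η) ^ ((1 - s) * L / l) := Real.rpow_pos_of_pos (by linarith) _
      rw [← Real.log_le_log_iff (by positivity) (Real.rpow_pos_of_pos hdp _), Real.log_pow,
        Real.log_rpow (by linarith), Real.log_rpow hdp, ← hL]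
      have h1 : 0 ≤ (1 - s) * L / l * Real.log (1 + η) := by
        have : 0 ≤ 1 - s := by linarith
        positivity
      have h2 : Real.log (C * L) / Real.log r * Real.log (1 + η) = Real.log (C * L) / (1 - s') := by
        rw [hlr]
        field_simp
      have h3 : Real.log (C * L) / (1 - s') + Real.log (1 + η) ≤
          ((1 + s / 16) / (1 - s / 4) + s / 16) * l := by
        have h4 : Real.log (C * L) / (1 - s') ≤ (1 + s / 16) * l / (1 - s / 4) :=
          div_le_div₀ (by positivity) hlA (by linarith) (by linarith)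
        have h5 : Real.log (1 + η) ≤ s / 16 * l := by
          have := abs_nonneg (Real.log C)
          linarith
        have h6 : (1 + s / 16) * l / (1 - s / 4) = (1 + s / 16) / (1 - s / 4) * l := by ring
        linarith
      have h7 : (1 - s) * ((1 + s / 16) / (1 - s / 4) + s / 16) ≤ 1 - 5 * s / 8 := by
        have h8 : (1 - s) * ((1 + s / 16) / (1 - s / 4) + s / 16) =
            (1 - s) * ((1 + s / 16) + s / 16 * (1 - s / 4)) / (1 - s / 4) := by
          have h9 : (1 - s / 4) ≠ 0 := by linarith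
          rw [eq_div_iff h9, mul_assoc, add_mul, div_mul_cancel₀ _ h9]
        rw [h8, div_le_iff₀ (by linarith)]
        nlinarith [mul_pos hs hs, mul_nonneg hs.le (by linarith : 0 ≤ 1 - s)]
      calc (m : ℝ) * ((1 - s) * L / l * Real.log (1 + η)) ≤
          (Real.log (C * L) / Real.log r + 1) * ((1 - s) * L / l * Real.log (1 + η)) :=
            mul_le_mul_of_nonneg_right hm2.le h1
        _ = (1 - s) * L / l *
            (Real.log (C * L) / Real.log r * Real.log (1 + η) + Real.log (1 + η)) := by ring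
        _ = (1 - s) * L / l * (Real.log (C * L) / (1 - s') + Real.log (1 + η)) := by rw [h2]
        _ ≤ (1 - s) * L / l * (((1 + s / 16) / (1 - s / 4) + s / 16) * l) := by
            refine mul_le_mul_of_nonneg_left h3 ?_
            have : 0 ≤ 1 - s := by linarith
            positivity
        _ = ((1 - s) * ((1 + s / 16) / (1 - s / 4) + s / 16)) * L := by
            field_simp
        _ ≤ _ := mul_le_mul_of_nonneg_right h7 hL0.le
    have hθ20 : 0 < θ2 := by linarith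
    have h3 : θ2 * d + 2 ≤ (θ2 + 2) * d := by nlinarith
    have h4 : (d : ℝ) ^ (1 - 5 * s / 8) * (d ^ (s / 8) * d) = (d : ℝ) ^ (2 - s / 2) := by
      rw [← Real.rpow_add_one hdp.ne', ← Real.rpow_add hdp]
      congr 1
      ring
    rw [← h4]
    have h5 : 0 < (d : ℝ) ^ (1 - 5 * s / 8) := Real.rpow_pos_of_pos hdp _
    calc ((1 + η) ^ ((1 - s) * L / l)) ^ m * (θ2 * d + 2) ≤
        (d : ℝ) ^ (1 - 5 * s / 8) * (θ2 * d + 2) := mul_le_mul_of_nonneg_right hK (by positivity)
      _ < _ := by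
        refine mul_lt_mul_of_pos_left (h3.trans_lt ?_) h5
        exact mul_lt_mul_of_pos_right (by linarith) hdp

/-- The jump, for spheres of diameter one. -/
theorem jump1 {κ : ℝ} (hκ : 0 ≤ κ) (hC : CELLS κ) {θ s : ℝ} (hθ : 0 < θ)
    (hθ1 : θ < (1 - Real.log 2) / 2) (hs : 0 < s) (hs1 : s ≤ 1) :
    ∃ d0 : ℕ, ∀ d : ℕ, d0 ≤ d → 1 ≤ d ∧ 0 < Real.log (Real.log d) ∧
      ∀ η : ℝ, 0 < η → η ≤ 1 → ∃ w1 w2 : ℝ,
      θ * d ≤ w1 ∧ w1 < w2 ∧ w2 ≤ (1 + η) * w1 ∧ w2 ≤ (κ + s) * (d * Real.log d) ∧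
      ∀ᶠ ℓ : ℝ in atTop,
        KK d s η * nn d (w1 - Real.log (bv d)) ℓ ≤ nn d (w2 - Real.log (bv d)) ℓ := by
  obtain ⟨θ2, hθ2, hθ3⟩ := exists_between hθ1
  -- the exponent
  obtain ⟨t, ht⟩ : ∃ t, t = min (θ2 / θ) ((κ + s) / (κ + s / 2)) := ⟨_, rfl⟩
  have hks : 0 < κ + s / 2 := by linarith
  have ht1 : 1 < t := by
    rw [ht]
    refine lt_min ?_ ?_
    · rwa [one_lt_div hθ]
    · rw [one_lt_div hks]
      linarith
  have htθ : t * θ ≤ θ2 := by
    have h1 : t ≤ θ2 / θ := by rw [ht]; exact min_le_left _ _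
    rwa [le_div_iff₀ hθ] at h1
  have htκ : t * (κ + s / 2) ≤ κ + s := by
    have h1 : t ≤ (κ + s) / (κ + s / 2) := by rw [ht]; exact min_le_right _ _
    rwa [le_div_iff₀ hks] at h1
  have hlt : 0 < Real.log t := Real.log_pos ht1
  obtain ⟨s', hs'⟩ : ∃ s', s' = min (s / 4) (Real.log t) := ⟨_, rfl⟩
  have hs0 : 0 < s' := by rw [hs']; exact lt_min (by positivity) hlt
  have hs4 : s' ≤ s / 4 := by rw [hs']; exact min_le_left _ _
  have hst : s' ≤ Real.log t := by rw [hs']; exact min_le_right _ _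
  obtain ⟨d1, h1⟩ := num_jump hθ hθ2 hκ hs hs1 hs0 hs4
  obtain ⟨d2, h2⟩ := high hκ hC (s := s / 2) (by positivity)
  obtain ⟨d3, h3⟩ := low (θ := θ2) (by linarith) hθ3
  have cast := tendsto_natCast_atTop_atTop (R := ℝ)
  obtain ⟨d4, h4⟩ := eventually_atTop.1 (cast.eventually_ge_atTop (1 / θ))
  refine ⟨max (max d1 d2) (max d3 d4), fun d hd => ?_⟩
  obtain ⟨hd1, mT, hLL, hm⟩ := h1 d ((le_max_left _ _).trans ((le_max_left _ _).trans hd))
  refine ⟨hd1, hLL, fun η hη hη1 => ?_⟩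
  obtain ⟨m, m1, m2⟩ := hm η hη hη1
  have h2' := h2 d ((le_max_right _ _).trans ((le_max_left _ _).trans hd))
  have h3' := h3 d ((le_max_left _ _).trans ((le_max_right _ _).trans hd))
  have k1 := h4 d ((le_max_right _ _).trans ((le_max_right _ _).trans hd))
  have hdp : (0 : ℝ) < d := by exact_mod_cast hd1
  have hθd : 1 ≤ θ * d := by
    rw [div_le_iff₀ hθ] at k1
    linarith
  obtain ⟨f, g, hF, -⟩ := Vdw.exists_F (d := d) hd1
  obtain ⟨P, hP, -, -⟩ := thermo_row d hd1 f g hF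
  have hb := bv_pos hd1
  have hR1 : 1 < 1 + η := by linarith
  obtain ⟨r, hr⟩ : ∃ r, r = (1 + η) ^ (1 - s') := ⟨_, rfl⟩
  rw [← hr] at m1
  have hr1 : 1 < r := by rw [hr]; exact Real.one_lt_rpow hR1 (by linarith)
  obtain ⟨v, hv⟩ : ∃ v, v = (1 + η) ^ s' := ⟨_, rfl⟩
  have hv1 : 1 < v := by rw [hv]; exact Real.one_lt_rpow hR1 hs0
  have hvr : v * r = 1 + η := by
    rw [hv, hr, ← Real.rpow_add (by linarith), add_sub_cancel, Real.rpow_one]
  have hvt : v ≤ t := by
    rw [← Real.log_le_log_iff (by linarith) (by linarith), hv, Real.log_rpow (by linarith)]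
    have h5 : Real.log (1 + η) ≤ 1 := by
      have := Real.log_le_sub_one_of_pos (by linarith : 0 < 1 + η)
      linarith
    nlinarith
  obtain ⟨K, hK⟩ : ∃ K, K = KK d s η := ⟨_, rfl⟩
  have hK0 : 0 < K := by rw [hK]; exact KK_pos hη
  rw [← hK] at m2 ⊢
  obtain ⟨T, hT⟩ : ∃ T, T = (κ + s / 2) * (d * Real.log d) := ⟨_, rfl⟩
  rw [← hT] at mT m1
  have hT0 : 0 < T := by linarith
  -- the chemical potentials
  obtain ⟨w, hw⟩ : ∃ w : ℕ → ℝ, w = fun k => min (θ * d * r ^ k) T := ⟨_, rfl⟩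
  have hwk : ∀ k, w k = min (θ * d * r ^ k) T := fun k => by rw [hw]
  have hwθ : ∀ k, θ * d ≤ w k := by
    intro k
    rw [hwk]
    exact le_min (le_mul_of_one_le_right (by positivity) (one_le_pow₀ hr1.le)) mT
  have hwT : ∀ k, w k ≤ T := by
    intro k
    rw [hwk]
    exact min_le_right _ _
  have hw0 : w 0 = θ * d := by
    rw [hwk, pow_zero, mul_one]
    exact min_eq_left mT
  have hwm : w m = T := by
    rw [hwk]
    exact min_eq_right m1
  have hwle : ∀ k, w k ≤ w (k + 1) := by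
    intro k
    rw [hwk, hwk]
    refine min_le_min_right _ (mul_le_mul_of_nonneg_left ?_ (by positivity))
    exact pow_le_pow_right₀ hr1.le (Nat.le_succ k)
  have hwr : ∀ k, w (k + 1) ≤ r * w k := by
    intro k
    rw [hwk, hwk, mul_min_of_nonneg _ _ (by linarith)]
    refine min_le_min (le_of_eq (by ring)) ?_
    nlinarith
  have hwv : ∀ k, w k - Real.log (bv d) < v * w k - Real.log (bv d) := by
    intro k
    have := hwθ k
    nlinarith
  obtain ⟨q, hq⟩ : ∃ q : ℕ → ℝ, q = fun k => (P (v * w k - Real.log (bv d)) -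
      P (w k - Real.log (bv d))) / ((v * w k - Real.log (bv d)) - (w k - Real.log (bv d))) :=
    ⟨_, rfl⟩
  have hqt : ∀ k, Tendsto (qq d (w k - Real.log (bv d)) (v * w k - Real.log (bv d))) atTop
      (𝓝 (q k)) := by
    intro k
    rw [hq]
    exact qq_tendsto hP _ _
  -- the first slope
  have hq0 : bv d * q 0 ≤ θ2 * d + 2 := by
    have h6 : v * w 0 ≤ θ2 * d := by
      rw [hw0]
      calc v * (θ * d) = v * θ * d := by ring
        _ ≤ t * θ * d := by
            exact mul_le_mul_of_nonneg_right (mul_le_mul_of_nonneg_right hvt hθ.le) hdp.le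
        _ ≤ θ2 * d := mul_le_mul_of_nonneg_right htθ hdp.le
    have h5 := h3' (v * w 0 - Real.log (bv d)) (by nlinarith [hwθ 0]) (by linarith)
    have h7 := (hqt 0).const_mul (bv d)
    refine le_of_tendsto h7 ?_
    filter_upwards [h5, eventually_gt_atTop 0] with ℓ h8 h9
    have h10 := mul_le_mul_of_nonneg_left (le_nn hd1 (hwv 0) h9) hb.le
    linarith
  -- the last slope
  have hqm : (d : ℝ) ^ (2 - s / 2) ≤ bv d * q m := by
    have h5 := h2' (w m - Real.log (bv d)) (by rw [hwm]; linarith)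
    have h6 := (hqt m).const_mul (bv d)
    refine ge_of_tendsto h6 ?_
    filter_upwards [h5, eventually_gt_atTop 0] with ℓ h7 h8
    exact h7.trans (mul_le_mul_of_nonneg_left (nn_le hd1 (hwv m) h8) hb.le)
  -- a jump
  obtain ⟨k, hk⟩ : ∃ k, K * q k < q (k + 1) := by
    by_contra hcon
    push Not at hcon
    have h5 : q m ≤ K ^ m * q 0 := le_geom hK0.le m fun k _ => hcon k
    have h6 := mul_le_mul_of_nonneg_left h5 hb.le
    have h7 : bv d * (K ^ m * q 0) ≤ K ^ m * (θ2 * d + 2) := by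
      calc bv d * (K ^ m * q 0) = K ^ m * (bv d * q 0) := by ring
        _ ≤ _ := mul_le_mul_of_nonneg_left hq0 (by positivity)
    linarith
  have hwp : 0 < w k := by linarith [hwθ k]
  refine ⟨w k, v * w (k + 1), hwθ k, ?_, ?_, ?_, ?_⟩
  · nlinarith [hwle k]
  · calc v * w (k + 1) ≤ v * (r * w k) := mul_le_mul_of_nonneg_left (hwr k) (by linarith)
      _ = v * r * w k := by ring
      _ = _ := by rw [hvr]
  · calc v * w (k + 1) ≤ t * T := mul_le_mul hvt (hwT _) (by linarith [hwθ (k + 1)]) (by linarith)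
      _ = t * (κ + s / 2) * (d * Real.log d) := by rw [hT]; ring
      _ ≤ _ := by
        refine mul_le_mul_of_nonneg_right htκ ?_
        have : (1 : ℝ) ≤ d := by exact_mod_cast hd1
        exact mul_nonneg hdp.le (Real.log_nonneg this)
  · have h5 : ∀ᶠ ℓ : ℝ in atTop,
        K * qq d (w k - Real.log (bv d)) (v * w k - Real.log (bv d)) ℓ <
        qq d (w (k + 1) - Real.log (bv d)) (v * w (k + 1) - Real.log (bv d)) ℓ :=
      ((hqt k).const_mul K).eventually_lt (hqt (k + 1)) hk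
    filter_upwards [h5, eventually_gt_atTop 0] with ℓ h6 h7
    have h8 := mul_le_mul_of_nonneg_left (nn_le hd1 (hwv k) h7) hK0.le
    have h9 := le_nn hd1 (hwv (k + 1)) h7
    linarith

end

end Pool.Agent.Iso
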