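import Pool.Agent.Lib.ISO.Fin
import Pool.Agent.Lib.KLG.Main2

/-!
# The isotherm of hard spheres in high dimension

The density is at least `d^(2 - s)` at the activities with `log (lam b) ≥ (1/2 + s) d log d`, and
jumps by a large factor between `θ d` and `(1/2 + s) d log d`.
-/

set_option autoImplicit false

namespace Pool.Agent.Iso

open MeasureTheory Filter Topology Pool.Agent.HdGas

theorem cells : CELLS (1 / 2) := by
  intro s hs
  obtain ⟨d0, h⟩ := KLG.crystal s hs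
  exact ⟨d0, fun d hd a ha f ρ₀ hF ρ hρ hx => h d hd a ha f ρ₀ hF ρ _ rfl hρ hx⟩

/-- The isotherm. -/
theorem isotherm {θ s : ℝ} (hθ : 0 < θ) (hθ1 : θ < (1 - Real.log 2) / 2) (hs : 0 < s) :
    ∃ d0 : ℕ, ∀ d : ℕ, d0 ≤ d → ∀ a : ℝ, 0 < a →
      (∀ lam : ℝ, 0 < lam → (1 / 2 + s) * (d * Real.log d) ≤ Real.log (lam * ball d a) →
        ∀ᶠ ℓ : ℝ in atTop, (d : ℝ) ^ (2 - s) ≤ ball d a * Nb d a lam ℓ / ℓ ^ d) ∧
      ∀ η : ℝ, 0 < η → η ≤ 1 → ∃ lam1 lam2 : ℝ, 0 < lam1 ∧ lam1 < lam2 ∧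
        θ * d ≤ Real.log (lam1 * ball d a) ∧
        Real.log (lam2 * ball d a) ≤ (1 + η) * Real.log (lam1 * ball d a) ∧
        Real.log (lam2 * ball d a) ≤ (1 / 2 + s) * (d * Real.log d) ∧
        ∀ᶠ ℓ : ℝ in atTop, (1 + η) ^ ((1 - s) * Real.log d / Real.log (Real.log d)) *
          Nb d a lam1 ℓ ≤ Nb d a lam2 ℓ := by
  obtain ⟨d1, h1⟩ := high_a (by norm_num) cells hs
  obtain ⟨d2, h2⟩ := jump_a (by norm_num) cells hθ hθ1 hs
  exact ⟨max d1 d2, fun d hd a ha => ⟨h1 d (le_of_max_le_left hd) a ha,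
    h2 d (le_of_max_le_right hd) a ha⟩⟩

end Pool.Agent.Iso
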