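import Pool.Agent.Lib.ISO.Prop2

/-!
# The near singularity of the free energy of hard spheres  (helper9)

From the mean field asymptotics at small densities and the packing bound at large densities: the
free energy has no bounded holomorphic extension to some disc around a density between `θ d` and
`(1 + s) d log d` whose relative radius is `100 log log d / (s log d)`.
-/

set_option autoImplicit false

open Filter Topology

namespace Pool.Agent.Iso

lemma sqrt3_le (d : ℕ) : (√3 / 2) ^ d ≤ Real.exp (-(d : ℝ) / 7) := by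
  have h1 : (√3 / 2 : ℝ) ≤ Real.exp (-(1 / 7)) := by
    have h0 : (0 : ℝ) ≤ √3 / 2 := by positivity
    rw [← pow_le_pow_iff_left₀ h0 (Real.exp_pos _).le (n := 14) (by norm_num)]
    have h2 : (√3 / 2 : ℝ) ^ 14 = (3 / 4) ^ 7 := by
      have : (√3 / 2 : ℝ) ^ 2 = 3 / 4 := by
        rw [div_pow, Real.sq_sqrt (by norm_num)]
        norm_num
      calc (√3 / 2 : ℝ) ^ 14 = ((√3 / 2 : ℝ) ^ 2) ^ 7 := by ring
        _ = _ := by rw [this]
    rw [h2, ← Real.exp_nat_mul]
    have h3 : ((14 : ℕ) : ℝ) * -(1 / 7) = -2 := by norm_num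
    rw [h3, Real.exp_neg, ← one_div, le_div_iff₀ (Real.exp_pos 2)]
    have h4 : Real.exp 2 = Real.exp 1 * Real.exp 1 := by
      rw [← Real.exp_add]
      norm_num
    have h5 := Real.exp_one_lt_d9
    have h6 := Real.exp_pos 1
    rw [h4]
    nlinarith
  calc (√3 / 2) ^ d ≤ Real.exp (-(1 / 7)) ^ d := pow_le_pow_left₀ (by positivity) h1 d
    _ = Real.exp (-(d : ℝ) / 7) := by
        rw [← Real.exp_nat_mul]
        congr 1
        ring

lemma pow36_le (e : ℕ) : (36 : ℝ) ^ e ≤ Real.exp (4 * e) := by
  have h1 : (36 : ℝ) ≤ Real.exp 4 := by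
    have h2 : Real.exp 4 = Real.exp 1 ^ 4 := by
      rw [← Real.exp_nat_mul]
      norm_num
    have h3 := Real.exp_one_gt_d9
    rw [h2]
    calc (36 : ℝ) ≤ 2.7 ^ 4 := by norm_num
      _ ≤ Real.exp 1 ^ 4 := pow_le_pow_left₀ (by norm_num) (by linarith) 4
  calc (36 : ℝ) ^ e ≤ Real.exp 4 ^ e := pow_le_pow_left₀ (by norm_num) h1 e
    _ = Real.exp (4 * e) := by
        rw [← Real.exp_nat_mul]
        congr 1
        ring

/-- The near singularity. -/
theorem near {θ s : ℝ} (hθ : 0 < θ) (hθ1 : θ < 1) (hs : 0 < s) (hs1 : s < 1) :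
    ∃ d0 : ℕ, ∀ d : ℕ, d0 ≤ d → ∀ (b : ℝ) (f : ℝ → ℝ), 0 < b →
      (∀ ρ x : ℝ, 0 < ρ → x = ρ * b → x ≤ θ * d →
        |b * f ρ - (x - x * Real.log ρ - x ^ 2 / 2)| ≤ 40 * (x ^ 3 * (1 + x) * (√3 / 2) ^ d)) →
      (∀ ρ : ℝ, 0 < ρ → ρ * b ≤ (d : ℝ) ^ (2 - s / 4) →
        ρ * (Real.log b - (1 / 2 + s / 4) * (d * Real.log d)) ≤ f ρ) →
      ∃ y : ℝ, θ * d ≤ y ∧ y ≤ (1 + s) * (d * Real.log d) ∧
        (1 + 100 * Real.log (Real.log d) / (s * Real.log d)) * y ≤ (d : ℝ) ^ (2 - s / 4) ∧
        ∀ g : ℂ → ℂ, DifferentiableOn ℂ g (Metric.ball (y : ℂ)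
            (100 * Real.log (Real.log d) / (s * Real.log d) * y)) →
          (∀ x : ℝ, |x - y| < 100 * Real.log (Real.log d) / (s * Real.log d) * y →
            g x = ((b * f (x / b) - x * Real.log b : ℝ) : ℂ)) →
          ∃ z ∈ Metric.ball (y : ℂ) (100 * Real.log (Real.log d) / (s * Real.log d) * y),
            Real.exp ((d : ℝ) ^ (1 - s)) < ‖g z‖ := by
  obtain ⟨d0, hd0⟩ := Filter.eventually_atTop.1 (tendsto_natCast_atTop_atTop.eventually
    (evs hθ hs hs1))
  refine ⟨d0, fun d hd b f hb hmf hpk => ?_⟩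
  obtain ⟨c3, cl, cll, cr, c5, c6, c7, c8, c9, c10, c11, c12, c13, c14⟩ := hd0 d hd
  set x : ℝ := (d : ℝ) with hx
  set l := Real.log x with hl
  set ll := Real.log l with hll
  set r := 100 * ll / (s * l) with hr
  have hr0 : 0 < r := by positivity
  have hx0 : 0 < x := by linarith
  set T := Real.exp (x ^ (1 - s)) with hT
  have hT1 : 1 ≤ T := Real.one_le_exp (by positivity)
  set X := (1 + s) * (x * l) with hX
  have hXpos : 0 < X := by positivity
  have hxl : x ≤ x * l := le_mul_of_one_le_right hx0.le cl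
  have hX2 : X ≤ 2 * (x * l) := by
    rw [hX]
    exact mul_le_mul_of_nonneg_right (by linarith) (by positivity)
  have hxX : x ≤ X := by
    rw [hX]
    have : 0 < s * (x * l) := by positivity
    linarith
  by_contra hcon
  push Not at hcon
  -- the difference
  set D : ℝ → ℝ := fun u => b * f (u / b) - u * Real.log b - (u - u * Real.log u - u ^ 2 / 2)
    with hD
  set q := 1 + r / 37 with hq
  have hq1 : 1 < q := by
    rw [hq]
    have : 0 < r / 37 := by positivity
    linarith
  set y₀ := θ * x with hy0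
  have hy0pos : 0 < y₀ := by positivity
  have hy0x : y₀ ≤ x := mul_le_of_le_one_left hx0.le hθ1.le
  -- the number of steps
  have hex : ∃ k : ℕ, X ≤ y₀ * q ^ k := by
    obtain ⟨k, hk⟩ := pow_unbounded_of_one_lt (X / y₀) hq1
    refine ⟨k, ?_⟩
    rw [div_lt_iff₀ hy0pos] at hk
    linarith
  classical
  set k := Nat.find hex with hk
  have hkX : X ≤ y₀ * q ^ k := Nat.find_spec hex
  have hkmin : ∀ i < k, y₀ * q ^ i < X := by
    intro i hi
    have := Nat.find_min hex hi
    push Not at this
    exact this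
  have hy0X : y₀ < X := by
    have h1 : y₀ < x := mul_lt_of_lt_one_left hx0 hθ1
    linarith
  have hk1 : 1 ≤ k := by
    by_contra h
    have hk0 : k = 0 := by omega
    rw [hk0, pow_zero, mul_one] at hkX
    linarith
  obtain ⟨k', hk'⟩ : ∃ k', k = k' + 1 := ⟨k - 1, by omega⟩
  have hlast : y₀ * q ^ k' < X := hkmin k' (by omega)
  have hlogq : r / 38 ≤ Real.log q := by
    have h1 := Real.one_sub_inv_le_log_of_pos (x := q) (by linarith)
    refine le_trans ?_ h1
    rw [hq]
    have h2 : (1 : ℝ) - (1 + r / 37)⁻¹ = r / (37 + r) := by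
      field_simp
      ring
    rw [h2, div_le_div_iff₀ (by norm_num) (by positivity)]
    exact mul_le_mul_of_nonneg_left (by linarith) hr0.le
  have hk'le : (k' : ℝ) * (r / 38) ≤ 6 / 5 * ll := by
    have h1 : Real.log (y₀ * q ^ k') ≤ Real.log X := Real.log_le_log (by positivity) hlast.le
    rw [Real.log_mul (by positivity) (by positivity), Real.log_pow] at h1
    have h2 : Real.log X - Real.log y₀ = Real.log ((1 + s) / θ) + ll := by
      rw [← Real.log_div (by positivity) (by positivity)]
      have : X / y₀ = (1 + s) / θ * l := by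
        rw [hX, hy0]
        field_simp
      rw [this, Real.log_mul (by positivity) (by positivity)]
    have h3 : (k' : ℝ) * (r / 38) ≤ k' * Real.log q :=
      mul_le_mul_of_nonneg_left hlogq (by positivity)
    linarith
  have h2k : (2 : ℝ) ^ k ≤ 2 * x ^ (s / 3) := by
    rw [hk', pow_succ, mul_comm]
    apply mul_le_mul_of_nonneg_left _ (by norm_num)
    have e1 : (2 : ℝ) ^ k' = Real.exp (k' * Real.log 2) := by
      rw [← Real.log_pow, Real.exp_log (by positivity)]
    rw [e1, Real.rpow_def_of_pos hx0]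
    apply Real.exp_le_exp.2
    rw [← hl]
    -- k' ≤ 0.456 s l
    have h1 : (k' : ℝ) ≤ 456 / 1000 * (s * l) := by
      have h2 : (k' : ℝ) * (r / 38) = k' * (100 * ll) / (38 * (s * l)) := by
        rw [hr]
        field_simp
      rw [h2, div_le_iff₀ (by positivity)] at hk'le
      have h3 : (k' : ℝ) * (100 * ll) ≤ (456 / 1000 * (s * l)) * (100 * ll) := by
        linarith
      exact le_of_mul_le_mul_right h3 (by positivity)
    have h2 : Real.log 2 ≤ 7 / 10 := by
      have := Real.log_two_lt_d9
      linarith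
    have h3 : 0 ≤ Real.log 2 := Real.log_nonneg (by norm_num)
    have h4 : (k' : ℝ) * Real.log 2 ≤ 456 / 1000 * (s * l) * (7 / 10) :=
      mul_le_mul h1 h2 h3 (by positivity)
    have h5 : 0 < s * l := by positivity
    linarith
  -- the exponent
  set m := ⌈x ^ (1 - s)⌉₊ with hm
  have hm1 : x ^ (1 - s) ≤ m := Nat.le_ceil _
  have hm2 : (m : ℝ) ≤ x ^ (1 - s) + 1 := (Nat.ceil_lt_add_one (by positivity)).le
  have hm0 : 1 ≤ m := by
    have : (1 : ℝ) ≤ m := c14.trans hm1
    exact_mod_cast this
  have he : (((m + 1) * 2 ^ k - 1 : ℕ) : ℝ) ≤ x / 50 := by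
    have h1 : (((m + 1) * 2 ^ k - 1 : ℕ) : ℝ) ≤ (((m + 1) * 2 ^ k : ℕ) : ℝ) := by
      exact_mod_cast Nat.sub_le _ _
    refine h1.trans ?_
    push_cast
    have h2 : (m : ℝ) + 1 ≤ 3 * x ^ (1 - s) := by linarith
    calc ((m : ℝ) + 1) * 2 ^ k ≤ (3 * x ^ (1 - s)) * (2 * x ^ (s / 3)) :=
          mul_le_mul h2 h2k (by positivity) (by positivity)
      _ = 6 * (x ^ (1 - s) * x ^ (s / 3)) := by ring
      _ = 6 * (x / x ^ (2 * s / 3)) := by
          rw [← Real.rpow_add hx0]
          have : x / x ^ (2 * s / 3) = x ^ (1 - 2 * s / 3) := by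
            rw [Real.rpow_sub hx0, Real.rpow_one]
          rw [this]
          congr 2
          ring
      _ ≤ 6 * (x / 300) := by
          apply mul_le_mul_of_nonneg_left _ (by norm_num)
          exact div_le_div_of_nonneg_left hx0.le (by norm_num) c11
      _ = x / 50 := by ring
  -- the bound in the discs
  have hchain := prop_chain (D := D) (M := 2 * T) (κ := r) (y₀ := y₀) (by positivity) hr0
    (by linarith) hy0pos k
    (by
      intro i hi
      rw [← hq]
      set y := y₀ * q ^ i with hy
      have hy1 : y₀ ≤ y := by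
        rw [hy]
        exact le_mul_of_one_le_right hy0pos.le (one_le_pow₀ hq1.le)
      have hypos : 0 < y := by linarith
      have hyX : y < X := hkmin i hi
      have hyr : (1 + r) * y ≤ x ^ (2 - s / 4) := by
        refine le_trans ?_ c5
        have h1 : (1 + r) * y ≤ 2 * y := mul_le_mul_of_nonneg_right (by linarith) hypos.le
        linarith
      obtain ⟨g, g1, g2, g3⟩ := hcon y hy1 hyX.le hyr
      have hry : r * y ≤ y / 2 := by
        have := mul_le_mul_of_nonneg_right cr hypos.le
        linarith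
      refine ⟨fun z => g z - mfc z, g1.sub (mfc_diff (by linarith)), ?_, ?_⟩
      · intro z hz
        have hz' : ‖z - y‖ < r * y := by rwa [Metric.mem_ball, dist_eq_norm] at hz
        have hyn : ‖(y : ℂ)‖ = y := by
          rw [Complex.norm_real, Real.norm_eq_abs, abs_of_pos hypos]
        have hz1 : 1 ≤ ‖z‖ := by
          have h1 : ‖(y : ℂ)‖ ≤ ‖z‖ + ‖z - y‖ := by
            have := norm_sub_le z (z - y)
            rwa [sub_sub_cancel] at this
          rw [hyn] at h1
          have h2 : 2 ≤ y := by linarith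
          linarith
        have hz2 : ‖z‖ ≤ x ^ 2 := by
          have h1 : ‖z‖ ≤ ‖z - y‖ + ‖(y : ℂ)‖ := by
            have := norm_add_le (z - y) (y : ℂ)
            rwa [sub_add_cancel] at this
          rw [hyn] at h1
          linarith
        have h1 := mfc_bound hz1 hz2
        have h2 : x ^ 2 * (5 + Real.log (x ^ 2)) + (x ^ 2) ^ 2 / 2 ≤ x ^ 4 := by
          rw [Real.log_pow]
          push_cast
          rw [← hl]
          have h3 : 10 + 4 * l ≤ x ^ 2 := c13.trans (by
            rw [sq]
            exact le_mul_of_one_le_left hx0.le (by linarith))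
          have h4 : 0 < x ^ 2 := by positivity
          have h5 := mul_le_mul_of_nonneg_left h3 h4.le
          have h6 : x ^ 2 * x ^ 2 = x ^ 4 := by ring
          linarith
        calc ‖g z - mfc z‖ ≤ ‖g z‖ + ‖mfc z‖ := norm_sub_le _ _
          _ ≤ T + T := add_le_add (g3 z hz) (h1.trans (h2.trans c7))
          _ = 2 * T := by ring
      · intro u hu
        have hu0 : 0 < u := by
          have := (abs_lt.1 hu).1
          linarith
        change g u - mfc u = ((D u : ℝ) : ℂ)
        rw [g2 u hu, mfc_real hu0, ← Complex.ofReal_sub])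
    m
    (by
      intro u hu
      have hr37 : r / 37 < 1 := by linarith
      have hu0 : 0 < u := lt_of_lt_of_le (mul_pos hy0pos (by linarith)) hu.1
      have hux : u ≤ x := hu.2.trans hy0x
      have h1 := hmf (u / b) u (by positivity) (by field_simp) hu.2
      have h2 : b * f (u / b) - (u - u * Real.log (u / b) - u ^ 2 / 2) = D u := by
        rw [hD, Real.log_div hu0.ne' hb.ne']
        ring
      rw [h2] at h1
      refine h1.trans ?_
      have h3 : u ^ 3 * (1 + u) ≤ x ^ 3 * (2 * x) :=
        mul_le_mul (pow_le_pow_left₀ hu0.le hux 3) (by linarith) (by linarith) (by positivity)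
      have h4 : 40 * (u ^ 3 * (1 + u) * (√3 / 2) ^ d) ≤
          (80 * x ^ 4) * Real.exp (-x / 7) := by
        have h5 := mul_le_mul h3 (sqrt3_le d) (by positivity) (by positivity)
        calc 40 * (u ^ 3 * (1 + u) * (√3 / 2) ^ d) ≤
              40 * (x ^ 3 * (2 * x) * Real.exp (-x / 7)) :=
              mul_le_mul_of_nonneg_left h5 (by norm_num)
          _ = (80 * x ^ 4) * Real.exp (-x / 7) := by ring
      refine h4.trans ?_
      have h6 : (80 * x ^ 4) * Real.exp (-x / 7) ≤ Real.exp (-(4 * (x / 50))) := by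
        calc (80 * x ^ 4) * Real.exp (-x / 7) ≤ Real.exp (6 / 100 * x) * Real.exp (-x / 7) :=
              mul_le_mul_of_nonneg_right c9 (Real.exp_pos _).le
          _ = Real.exp (6 / 100 * x + -x / 7) := by rw [Real.exp_add]
          _ ≤ Real.exp (-(4 * (x / 50))) := by
              apply Real.exp_le_exp.2
              linarith
      refine h6.trans ?_
      have h7 : Real.exp (-(4 * (x / 50))) ≤ (1 / 36) ^ ((m + 1) * 2 ^ k - 1) := by
        rw [one_div, inv_pow, Real.exp_neg]
        apply inv_anti₀ (by positivity)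
        refine (pow36_le _).trans ?_
        apply Real.exp_le_exp.2
        linarith
      refine h7.trans ?_
      have h8 : (0 : ℝ) < (1 / 36) ^ ((m + 1) * 2 ^ k - 1) := by positivity
      exact le_mul_of_one_le_left h8.le (by linarith))
  rw [← hq] at hchain
  -- the last point
  set v := y₀ * q ^ k with hv
  have hvpos : 0 < v := by positivity
  have hvX : v ≤ 2 * X := by
    rw [hv, hk', pow_succ, ← mul_assoc]
    have : q ≤ 2 := by linarith
    have h2 : 0 < y₀ * q ^ k' := by positivity
    have h3 := mul_le_mul_of_nonneg_left this h2.le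
    linarith
  have hsmall := hchain v ⟨by
    have : 0 < v * (r / 37) := by positivity
    linarith, le_refl _⟩
  have hM : 2 * T * (1 / 36) ^ m < 1 := by
    have h1 : (1 / 36 : ℝ) ^ m = 1 / 36 ^ m := by rw [one_div, inv_pow, one_div]
    rw [h1, mul_one_div, div_lt_one (by positivity)]
    have h2 : T ≤ Real.exp 1 ^ m := by
      rw [← Real.exp_nat_mul, mul_one]
      exact Real.exp_le_exp.2 hm1
    have h3 := Real.exp_one_lt_d9
    have h4 : Real.exp 1 ^ m ≤ 3 ^ m := pow_le_pow_left₀ (Real.exp_pos 1).le (by linarith) m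
    have h5 : (2 : ℝ) ≤ 2 ^ m := by
      calc (2 : ℝ) = 2 ^ 1 := by norm_num
        _ ≤ 2 ^ m := pow_le_pow_right₀ (by norm_num) hm0
    calc 2 * T ≤ 2 ^ m * 3 ^ m := mul_le_mul h5 (h2.trans h4) (by positivity) (by positivity)
      _ = 6 ^ m := by rw [← mul_pow]; norm_num
      _ < 36 ^ m := pow_lt_pow_left₀ (by norm_num) (by norm_num) (by omega)
  have hDv : 1 ≤ D v := by
    have hvl : v ≤ 4 * (x * l) := by linarith
    have h1 := hpk (v / b) (by positivity) (by
      rw [div_mul_cancel₀ _ hb.ne']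
      exact hvl.trans c5)
    have h2 : v * (Real.log b - (1 / 2 + s / 4) * (x * l)) ≤ b * f (v / b) := by
      have := mul_le_mul_of_nonneg_left h1 hb.le
      have e : b * (v / b * (Real.log b - (1 / 2 + s / 4) * (x * l))) =
          v * (Real.log b - (1 / 2 + s / 4) * (x * l)) := by
        field_simp
      rw [e] at this
      exact this
    have h3 : 1 ≤ Real.log v := by
      refine cl.trans ?_
      apply Real.log_le_log hx0
      linarith
    have h4 : 1 ≤ v := by linarith
    have h5 : D v ≥ v * (v / 2 - (1 / 2 + s / 4) * (x * l) - 1 + Real.log v) := by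
      rw [hD]
      change _ ≤ b * f (v / b) - v * Real.log b - (v - v * Real.log v - v ^ 2 / 2)
      linarith
    have h6 : 1 ≤ v / 2 - (1 / 2 + s / 4) * (x * l) - 1 + Real.log v := by
      have h7 : (1 + s) * (x * l) ≤ v := hkX
      linarith
    have h8 := mul_le_mul_of_nonneg_left h6 hvpos.le
    linarith
  have h9 : D v ≤ |D v| := le_abs_self _
  linarith

end Pool.Agent.Iso
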