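import Pool.Agent.Lib.ISO.Main
import Pool.Agent.Lib.ISO.Prop3

/-!
# The near singularity of the free energy of hard spheres in high dimension  (helper9)
-/

set_option autoImplicit false

namespace Pool.Agent.Iso

open MeasureTheory Filter Topology Pool.Agent.HdGas Pool.Agent.VdwGas

/-- The free energy has no bounded holomorphic extension to some disc. -/
theorem nearsing {θ s : ℝ} (hθ : 0 < θ) (hθ1 : θ < (1 - Real.log 2) / 2) (hs : 0 < s)
    (hs1 : s < 1) :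
    ∃ d0 : ℕ, ∀ d : ℕ, d0 ≤ d → ∀ a : ℝ, 0 < a → ∀ (f : ℝ → ℝ) (ρ₀ : ℝ),
      IsF d a (fun _ => 0) f ρ₀ →
      (∀ ρ x : ℝ, 0 < ρ → x = ρ * ball d a → x ≤ θ * d →
        |ball d a * f ρ - (x - x * Real.log ρ - x ^ 2 / 2)| ≤
          40 * (x ^ 3 * (1 + x) * (√3 / 2) ^ d)) →
      ∃ y r : ℝ, r = 100 * Real.log (Real.log d) / (s * Real.log d) ∧
        θ * d ≤ y ∧ y ≤ (1 + s) * (d * Real.log d) ∧ (1 + r) * y < ρ₀ * ball d a ∧
        ∀ g : ℂ → ℂ, DifferentiableOn ℂ g (Metric.ball (y : ℂ) (r * y)) →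
          (∀ x : ℝ, |x - y| < r * y →
            g x = ((ball d a * f (x / ball d a) - x * Real.log (ball d a) : ℝ) : ℂ)) →
          ∃ z ∈ Metric.ball (y : ℂ) (r * y), Real.exp ((d : ℝ) ^ (1 - s)) < ‖g z‖ := by
  have hθ1' : θ < 1 := by
    have : 0 ≤ Real.log 2 := Real.log_nonneg (by norm_num)
    linarith
  obtain ⟨d1, h1⟩ := near hθ hθ1' hs hs1
  obtain ⟨d2, h2⟩ := cells (s / 4) (by positivity)
  obtain ⟨d3, h3⟩ := Filter.eventually_atTop.1 (tendsto_natCast_atTop_atTop.eventually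
    (evs hθ hs hs1))
  refine ⟨max 1 (max d1 (max d2 d3)), fun d hd a ha f ρ₀ hF hmf => ?_⟩
  have hd1 : 1 ≤ d := (le_max_left _ _).trans hd
  have hb : 0 < ball d a := ball_pos hd1 ha
  have hk' : Pool.Agent.KLG.kap d * (2 * a) ^ d = ball d a := by
    rw [Pool.Agent.HdGas.ball_eq d ha, mul_comm]
    rfl
  have hk := h2 d (by omega) a ha f ρ₀ hF
  rw [hk'] at hk
  obtain ⟨y, hy1, hy2, hy3, hy4⟩ := h1 d (by omega) (ball d a) f hb hmf
    (fun ρ hρ hρb => (hk ρ hρ hρb).2)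
  obtain ⟨c3, cl, cll, -⟩ := h3 d (by omega)
  refine ⟨y, _, rfl, hy1, hy2, ?_, hy4⟩
  have hy0 : 0 < y := by
    have : 0 < θ * d := by positivity
    linarith
  have hr0 : 0 < 100 * Real.log (Real.log d) / (s * Real.log d) := by positivity
  have := (hk ((1 + 100 * Real.log (Real.log d) / (s * Real.log d)) * y / ball d a)
    (by positivity) (by rwa [div_mul_cancel₀ _ hb.ne'])).1
  rwa [div_lt_iff₀ hb] at this

end Pool.Agent.Iso
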