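import Mathlib

/-!
# Propagation of smallness for bounded holomorphic functions  (helper9)

If `g` is holomorphic and bounded by `M` on a disc of radius `37 h` around the real point `y`, and
`|g| ≤ M 36 ^ (-m)` on the real interval `[y - h, y]`, then `|g| ≤ 3 M 6 ^ (-m)` on `[y, y + h]`.
-/

set_option autoImplicit false

open Polynomial Finset

namespace Pool.Agent.Iso

/-- Growth of a Chebyshev polynomial. -/
lemma cheb_le (n : ℕ) {x : ℝ} (h1 : 1 ≤ x) (h3 : x ≤ 3) :
    (Chebyshev.T ℝ n).eval x ≤ 6 ^ n := by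
  induction n with
  | zero => simp
  | succ n ih =>
    have h := Chebyshev.T_add_one ℝ (n : ℤ)
    have e : ((n + 1 : ℕ) : ℤ) = (n : ℤ) + 1 := by push_cast; ring
    rw [e, h]
    simp only [eval_sub, eval_mul, eval_X, eval_ofNat]
    have h4 := Chebyshev.one_le_eval_T_real ((n : ℤ) - 1) h1
    have h5 := Chebyshev.one_le_eval_T_real (n : ℤ) h1
    rw [pow_succ]
    nlinarith

/-- Growth of a polynomial bounded on an interval. -/
lemma poly_growth (n : ℕ) (P : ℝ[X]) (hdeg : P.degree ≤ n) (B : ℝ) (hB : 0 < B)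
    (hP : ∀ x ∈ Set.Icc (-1 : ℝ) 1, |P.eval x| ≤ B) {x : ℝ} (h1 : 1 ≤ x) (h3 : x ≤ 3) :
    |P.eval x| ≤ B * 6 ^ n := by
  have key : ∀ Q : ℝ[X], Q.degree ≤ n → (∀ x ∈ Set.Icc (-1 : ℝ) 1, |Q.eval x| ≤ B) →
      Q.eval x ≤ B * 6 ^ n := by
    intro Q hQ hQB
    have h := Chebyshev.eval_iterate_derivative_le_of_forall_abs_le_one (n := n)
      (P := C (1 / B) * Q) (k := 0) h1
      (by
        refine le_trans (degree_mul_le _ _) ?_
        refine le_trans (add_le_add degree_C_le hQ) ?_
        simp)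
      (by
        intro z hz
        rw [eval_mul, eval_C, abs_mul, abs_of_pos (by positivity : 0 < 1 / B), one_div_mul_eq_div,
          div_le_one hB]
        exact hQB z hz)
    simp only [Function.iterate_zero, id_eq, eval_mul, eval_C] at h
    have h2 := h.trans (cheb_le n h1 h3)
    rw [one_div_mul_eq_div, div_le_iff₀ hB] at h2
    linarith
  rw [abs_le]
  constructor
  · have := key (-P) (by rwa [degree_neg]) (by
      intro z hz
      rw [eval_neg, abs_neg]
      exact hP z hz)
    rw [eval_neg] at this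
    linarith
  · exact key P hdeg hP

/-- Taylor approximation with a geometric error. -/
lemma taylor_approx {g : ℂ → ℂ} {y h M : ℝ} (hh : 0 < h)
    (hg : DifferentiableOn ℂ g (Metric.closedBall (y : ℂ) (36 * h)))
    (hM : ∀ z ∈ Metric.closedBall (y : ℂ) (36 * h), ‖g z‖ ≤ M) :
    ∃ a : ℕ → ℝ, ∀ (n : ℕ) (x : ℝ), |x - y| ≤ h →
      |(g x).re - ∑ k ∈ range n, a k * (x - y) ^ k| ≤ M * (1 / 36) ^ n * (36 / 35) := by
  set R : NNReal := ⟨36 * h, by positivity⟩ with hR
  have hR0 : 0 < R := by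
    rw [← NNReal.coe_pos]
    change 0 < 36 * h
    positivity
  have hRc : (R : ℝ) = 36 * h := rfl
  have hps := DifferentiableOn.hasFPowerSeriesOnBall (R := R) (c := (y : ℂ)) (f := g) hg hR0
  set p := cauchyPowerSeries g (y : ℂ) R with hp
  have hM0 : 0 ≤ M := (norm_nonneg _).trans (hM y (Metric.mem_closedBall_self (by positivity)))
  have hcoef : ∀ n, ‖p n‖ ≤ M * (1 / (36 * h)) ^ n := by
    intro n
    have h1 := norm_cauchyPowerSeries_le g (y : ℂ) R n
    rw [← hp, hRc, abs_of_pos (by positivity : 0 < 36 * h)] at h1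
    refine h1.trans ?_
    rw [one_div]
    apply mul_le_mul_of_nonneg_right _ (by positivity)
    have h2 : ∫ θ : ℝ in 0..2 * Real.pi, ‖g (circleMap y (36 * h) θ)‖ ≤
        ∫ θ : ℝ in 0..2 * Real.pi, M := by
      apply intervalIntegral.integral_mono_on (by positivity)
      · apply ContinuousOn.intervalIntegrable
        have hc : Continuous (circleMap (y : ℂ) (36 * h)) := continuous_circleMap _ _
        exact (hg.continuousOn.comp hc.continuousOn (fun t _ =>
          circleMap_mem_closedBall _ (by positivity) _)).norm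
      · exact intervalIntegrable_const
      · intro t _
        exact hM _ (circleMap_mem_closedBall _ (by positivity) _)
    rw [intervalIntegral.integral_const, smul_eq_mul, sub_zero] at h2
    calc (2 * Real.pi)⁻¹ * ∫ θ : ℝ in 0..2 * Real.pi, ‖g (circleMap y (36 * h) θ)‖
        ≤ (2 * Real.pi)⁻¹ * (2 * Real.pi * M) := mul_le_mul_of_nonneg_left h2 (by positivity)
      _ = M := by
          have := Real.pi_pos
          field_simp
  refine ⟨fun k => (p.coeff k).re, fun n x hx => ?_⟩
  have hmem : ((x - y : ℝ) : ℂ) ∈ Metric.eball (0 : ℂ) R := by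
    rw [Metric.mem_eball, edist_dist, dist_zero_right, Complex.norm_real, Real.norm_eq_abs]
    rw [ENNReal.ofReal_lt_iff_lt_toReal (abs_nonneg _) (by simp)]
    rw [ENNReal.coe_toReal, hRc]
    linarith
  have hsum := hps.hasSum hmem
  have hxy : (y : ℂ) + ((x - y : ℝ) : ℂ) = x := by push_cast; ring
  rw [hxy] at hsum
  have hterm : ∀ k, ‖(p k fun _ => ((x - y : ℝ) : ℂ))‖ ≤ M * (1 / 36) ^ k := by
    intro k
    refine (ContinuousMultilinearMap.le_opNorm _ _).trans ?_
    rw [Finset.prod_const, Finset.card_univ, Fintype.card_fin, Complex.norm_real,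
      Real.norm_eq_abs]
    calc ‖p k‖ * |x - y| ^ k ≤ (M * (1 / (36 * h)) ^ k) * h ^ k :=
          mul_le_mul (hcoef k) (pow_le_pow_left₀ (abs_nonneg _) hx k) (by positivity)
            (by positivity)
      _ = M * (1 / 36) ^ k := by
          rw [mul_assoc, ← mul_pow]
          congr 2
          field_simp
  have hbd := norm_sub_le_of_geometric_bound_of_hasSum (r := 1 / 36) (C := M) (by norm_num)
    hterm hsum n
  have hre : ((∑ k ∈ range n, (p k fun _ => ((x - y : ℝ) : ℂ))) - g x).re =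
      (∑ k ∈ range n, (p.coeff k).re * (x - y) ^ k) - (g x).re := by
    rw [Complex.sub_re, Complex.re_sum]
    congr 1
    apply Finset.sum_congr rfl
    intro k _
    rw [FormalMultilinearSeries.apply_eq_pow_smul_coeff, smul_eq_mul, ← Complex.ofReal_pow,
      Complex.re_ofReal_mul, mul_comm]
  have h1 := (Complex.abs_re_le_norm _).trans hbd
  rw [hre, abs_sub_comm] at h1
  refine h1.trans (le_of_eq ?_)
  norm_num
  ring

/-- One step of the propagation. -/
lemma prop_step {g : ℂ → ℂ} {D : ℝ → ℝ} {y h M : ℝ} (hh : 0 < h) (hM0 : 0 < M)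
    (hg : DifferentiableOn ℂ g (Metric.closedBall (y : ℂ) (36 * h)))
    (hM : ∀ z ∈ Metric.closedBall (y : ℂ) (36 * h), ‖g z‖ ≤ M)
    (hD : ∀ x : ℝ, |x - y| ≤ h → g x = D x) (m : ℕ)
    (hsm : ∀ x ∈ Set.Icc (y - h) y, |D x| ≤ M * (1 / 36) ^ m) {t : ℝ} (ht : t ∈ Set.Icc y (y + h)) :
    |D t| ≤ 3 * M * (1 / 6) ^ m := by
  obtain ⟨a, ha⟩ := taylor_approx hh hg hM
  have happ : ∀ x : ℝ, |x - y| ≤ h →
      |D x - ∑ k ∈ range (m + 1), a k * (x - y) ^ k| ≤ M * (1 / 36) ^ m * (1 / 35) := by
    intro x hx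
    have h1 := ha (m + 1) x hx
    rw [hD x hx, Complex.ofReal_re] at h1
    refine h1.trans (le_of_eq ?_)
    rw [pow_succ]
    ring
  -- the rescaled polynomial
  set P : ℝ[X] := ∑ k ∈ range (m + 1), C (a k * (h / 2) ^ k) * (X - 1) ^ k with hP
  have hPev : ∀ u : ℝ, P.eval u = ∑ k ∈ range (m + 1), a k * ((y + h / 2 * (u - 1)) - y) ^ k := by
    intro u
    rw [hP, eval_finset_sum]
    apply Finset.sum_congr rfl
    intro k _
    simp only [eval_mul, eval_C, eval_pow, eval_sub, eval_X, eval_one]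
    rw [add_sub_cancel_left, mul_pow]
    ring
  have hdeg : P.degree ≤ m := by
    rw [hP]
    refine (degree_sum_le _ _).trans ?_
    apply Finset.sup_le
    intro k hk
    have hk' : k ≤ m := by
      have := Finset.mem_range.1 hk
      omega
    refine (degree_mul_le _ _).trans ?_
    refine (add_le_add degree_C_le (degree_pow_le _ _)).trans ?_
    rw [zero_add]
    have h1 : (X - 1 : ℝ[X]).degree = 1 := by
      have := degree_X_sub_C (1 : ℝ)
      simpa using this
    rw [h1]
    simp only [nsmul_eq_mul, mul_one]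
    exact_mod_cast hk'
  have hbd : ∀ u ∈ Set.Icc (-1 : ℝ) 1, |P.eval u| ≤ M * (1 / 36) ^ m * (36 / 35) := by
    intro u hu
    rw [hPev]
    have hx1 : y + h / 2 * (u - 1) ∈ Set.Icc (y - h) y := by
      constructor
      · nlinarith [hu.1]
      · nlinarith [hu.2]
    have hx2 : |y + h / 2 * (u - 1) - y| ≤ h := by
      rw [abs_le]
      constructor
      · linarith [hx1.1]
      · linarith [hx1.2]
    have h1 := happ _ hx2
    have h2 := hsm _ hx1
    have h3 := abs_sub_abs_le_abs_sub (∑ k ∈ range (m + 1), a k *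
      ((y + h / 2 * (u - 1)) - y) ^ k) (D (y + h / 2 * (u - 1)))
    rw [abs_sub_comm] at h1
    linarith
  have hpm : (0 : ℝ) < (1 / 36) ^ m := by positivity
  have hgr := poly_growth m P hdeg (M * (1 / 36) ^ m * (36 / 35)) (by positivity) hbd
    (x := 1 + 2 * (t - y) / h) (by
      have : 0 ≤ 2 * (t - y) / h := div_nonneg (by linarith [ht.1]) hh.le
      linarith) (by
      have : 2 * (t - y) / h ≤ 2 := by
        rw [div_le_iff₀ hh]
        linarith [ht.2]
      linarith)
  rw [hPev] at hgr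
  have e1 : y + h / 2 * (1 + 2 * (t - y) / h - 1) = t := by
    field_simp
    ring
  rw [e1] at hgr
  have h1 := happ t (by
    rw [abs_le]
    constructor
    · linarith [ht.1]
    · linarith [ht.2])
  have h3 := abs_sub_abs_le_abs_sub (D t) (∑ k ∈ range (m + 1), a k * (t - y) ^ k)
  have e2 : ((1 : ℝ) / 36) ^ m * 6 ^ m = (1 / 6) ^ m := by
    rw [← mul_pow]
    norm_num
  have e3 : M * (1 / 36) ^ m * (36 / 35) * 6 ^ m = M * (1 / 6) ^ m * (36 / 35) := by
    rw [← e2]
    ring
  rw [e3] at hgr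
  have e4 : ((1 : ℝ) / 36) ^ m ≤ (1 / 6) ^ m := by
    apply pow_le_pow_left₀ (by norm_num) (by norm_num)
  have e5 : M * (1 / 36) ^ m ≤ M * (1 / 6) ^ m := mul_le_mul_of_nonneg_left e4 hM0.le
  have e6 : 0 < M * (1 / 6) ^ m := by positivity
  nlinarith

/-- The chain. -/
lemma prop_chain {D : ℝ → ℝ} {M κ y₀ : ℝ} (hM0 : 0 < M) (hκ : 0 < κ) (hκ1 : κ ≤ 1)
    (hy : 0 < y₀) (k : ℕ)
    (hg : ∀ i < k, ∃ g : ℂ → ℂ,
      DifferentiableOn ℂ g (Metric.ball ((y₀ * (1 + κ / 37) ^ i : ℝ) : ℂ)
        (κ * (y₀ * (1 + κ / 37) ^ i))) ∧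
      (∀ z ∈ Metric.ball ((y₀ * (1 + κ / 37) ^ i : ℝ) : ℂ) (κ * (y₀ * (1 + κ / 37) ^ i)),
        ‖g z‖ ≤ M) ∧
      ∀ x : ℝ, |x - y₀ * (1 + κ / 37) ^ i| < κ * (y₀ * (1 + κ / 37) ^ i) → g x = D x)
    (m : ℕ)
    (h0 : ∀ x ∈ Set.Icc (y₀ * (1 - κ / 37)) y₀, |D x| ≤ M * (1 / 36) ^ ((m + 1) * 2 ^ k - 1)) :
    ∀ x ∈ Set.Icc (y₀ * (1 + κ / 37) ^ k * (1 - κ / 37)) (y₀ * (1 + κ / 37) ^ k),
      |D x| ≤ M * (1 / 36) ^ m := by
  induction k generalizing m with
  | zero =>
    intro x hx
    simp only [pow_zero, mul_one] at hx h0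
    have := h0 x hx
    simpa using this
  | succ k ih =>
    have e0 : (2 * m + 1 + 1) * 2 ^ k - 1 = (m + 1) * 2 ^ (k + 1) - 1 := by
      rw [pow_succ]
      congr 1
      ring
    have hih := ih (fun i hi => hg i (by omega)) (2 * m + 1) (by rw [e0]; exact h0)
    obtain ⟨g, g1, g2, g3⟩ := hg k (by omega)
    set y := y₀ * (1 + κ / 37) ^ k with hydef
    have hypos : 0 < y := by positivity
    have hh : 0 < κ * y / 37 := by positivity
    have hsub : Metric.closedBall (y : ℂ) (36 * (κ * y / 37)) ⊆ Metric.ball (y : ℂ) (κ * y) := by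
      apply Metric.closedBall_subset_ball
      have : 0 < κ * y := by positivity
      linarith
    have hst := fun t ht => prop_step (g := g) (D := D) (y := y) (h := κ * y / 37) (M := M) hh hM0
      (g1.mono hsub) (fun z hz => g2 z (hsub hz))
      (fun x hx => g3 x (lt_of_le_of_lt hx (by
        have : 0 < κ * y := by positivity
        linarith))) (2 * m + 1)
      (by
        intro x hx
        apply hih
        constructor
        · have := hx.1
          linarith
        · exact hx.2) (t := t) ht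
    have e36 : ((1 : ℝ) / 6) ^ (2 * m + 1) = (1 / 36) ^ m * (1 / 6) := by
      rw [pow_succ, pow_mul]
      norm_num
    have hpm : (0 : ℝ) < (1 / 36) ^ m := by positivity
    have hy1 : y₀ * (1 + κ / 37) ^ (k + 1) = y * (1 + κ / 37) := by
      rw [hydef, pow_succ]
      ring
    rw [hy1]
    intro x hx
    by_cases hxy : x ≤ y
    · have h1 := hih x ⟨by
        have := hx.1
        have h2 : y * (1 - κ / 37) ≤ y * (1 + κ / 37) * (1 - κ / 37) := by
          have : 0 < y * (κ / 37) := by positivity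
          nlinarith
        linarith, hxy⟩
      refine h1.trans ?_
      apply mul_le_mul_of_nonneg_left _ hM0.le
      exact pow_le_pow_of_le_one (by norm_num) (by norm_num) (by omega)
    · push Not at hxy
      have h1 := hst x ⟨hxy.le, by
        have := hx.2
        linarith⟩
      rw [e36] at h1
      have : 0 < M * (1 / 36) ^ m := by positivity
      nlinarith

end Pool.Agent.Iso
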