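import Pool.Agent.Lib.ISO.Prop1

/-!
# The near singularity of the free energy of hard spheres: the analytic part  (helper9)
-/

set_option autoImplicit false

open Filter Topology

namespace Pool.Agent.Iso

/-- The mean field free energy. -/
noncomputable def mfc (z : ℂ) : ℂ := z - z * Complex.log z - z ^ 2 / 2

lemma mfc_real {x : ℝ} (hx : 0 < x) : mfc x = ((x - x * Real.log x - x ^ 2 / 2 : ℝ) : ℂ) := by
  unfold mfc
  rw [← Complex.ofReal_log hx.le]
  push_cast
  ring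

lemma mfc_bound {z : ℂ} {Z : ℝ} (h1 : 1 ≤ ‖z‖) (h2 : ‖z‖ ≤ Z) :
    ‖mfc z‖ ≤ Z * (5 + Real.log Z) + Z ^ 2 / 2 := by
  have hlog : ‖Complex.log z‖ ≤ Real.log Z + 4 := by
    refine (Complex.norm_le_abs_re_add_abs_im _).trans ?_
    rw [Complex.log_re, Complex.log_im]
    have h3 : |Real.log ‖z‖| ≤ Real.log Z := by
      rw [abs_of_nonneg (Real.log_nonneg h1)]
      exact Real.log_le_log (by linarith) h2
    have h4 : |Complex.arg z| ≤ 4 := (Complex.abs_arg_le_pi z).trans Real.pi_le_four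
    linarith
  have hZ : 0 ≤ Z := by linarith
  have hlZ : 0 ≤ Real.log Z := Real.log_nonneg (by linarith)
  unfold mfc
  calc ‖z - z * Complex.log z - z ^ 2 / 2‖ ≤ ‖z - z * Complex.log z‖ + ‖z ^ 2 / 2‖ :=
        norm_sub_le _ _
    _ ≤ ‖z‖ + ‖z * Complex.log z‖ + ‖z ^ 2 / 2‖ := by
        linarith [norm_sub_le z (z * Complex.log z)]
    _ = ‖z‖ + ‖z‖ * ‖Complex.log z‖ + ‖z‖ ^ 2 / 2 := by
        rw [norm_mul, norm_div, norm_pow]
        norm_num
    _ ≤ Z + Z * (Real.log Z + 4) + Z ^ 2 / 2 := by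
        have h5 : ‖z‖ * ‖Complex.log z‖ ≤ Z * (Real.log Z + 4) :=
          mul_le_mul h2 hlog (norm_nonneg _) hZ
        have h6 : ‖z‖ ^ 2 ≤ Z ^ 2 := pow_le_pow_left₀ (norm_nonneg _) h2 2
        linarith
    _ = Z * (5 + Real.log Z) + Z ^ 2 / 2 := by ring

lemma mfc_diff {y R : ℝ} (hR : R < y) : DifferentiableOn ℂ mfc (Metric.ball (y : ℂ) R) := by
  intro z hz
  have hz2 : z ∈ Complex.slitPlane := by
    rw [Complex.mem_slitPlane_iff]
    left
    have h1 : ‖z - y‖ < R := by rwa [Metric.mem_ball, dist_eq_norm] at hz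
    have h2 := (Complex.abs_re_le_norm (z - y)).trans_lt h1
    rw [Complex.sub_re, Complex.ofReal_re, abs_lt] at h2
    linarith [h2.1]
  unfold mfc
  have h3 : DifferentiableAt ℂ Complex.log z := Complex.differentiableAt_log hz2
  exact ((differentiableAt_id.sub (differentiableAt_id.mul h3)).sub
    ((differentiableAt_id.pow 2).div_const 2)).differentiableWithinAt

lemma ev_log : Tendsto (fun x : ℝ => Real.log x) atTop atTop := Real.tendsto_log_atTop

lemma ev_loglog : Tendsto (fun x : ℝ => Real.log (Real.log x)) atTop atTop :=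
  Real.tendsto_log_atTop.comp Real.tendsto_log_atTop

/-- The eventual inequalities. -/
lemma evs {θ s : ℝ} (hθ : 0 < θ) (hs : 0 < s) (hs1 : s < 1) : ∀ᶠ x : ℝ in atTop,
    3 ≤ x ∧ 1 ≤ Real.log x ∧ 0 < Real.log (Real.log x) ∧
    100 * Real.log (Real.log x) / (s * Real.log x) ≤ 1 / 2 ∧
    4 * (x * Real.log x) ≤ x ^ (2 - s / 4) ∧ 4 * (x * Real.log x) ≤ x ^ 2 ∧
    x ^ 4 ≤ Real.exp (x ^ (1 - s)) ∧ 2 ≤ θ * x ∧ 80 * x ^ 4 ≤ Real.exp (6 / 100 * x) ∧
    Real.log ((1 + s) / θ) ≤ 1 / 5 * Real.log (Real.log x) ∧ 300 ≤ x ^ (2 * s / 3) ∧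
    1 ≤ s / 4 * (x * Real.log x) ∧ 10 + 4 * Real.log x ≤ x ∧ 1 ≤ x ^ (1 - s) := by
  have hl1 : ∀ᶠ x : ℝ in atTop, 1 ≤ Real.log x := ev_log.eventually_ge_atTop 1
  have e4 : ∀ᶠ x : ℝ in atTop, 100 * Real.log (Real.log x) / (s * Real.log x) ≤ 1 / 2 := by
    have h := (Real.isLittleO_log_id_atTop.comp_tendsto ev_log).bound
      (show (0 : ℝ) < s / 200 by positivity)
    filter_upwards [h, hl1] with x hx hx1
    simp only [Function.comp_apply, id_eq, Real.norm_eq_abs] at hx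
    rw [abs_of_pos (show 0 < Real.log x by linarith)] at hx
    have h2 : Real.log (Real.log x) ≤ s / 200 * Real.log x := (le_abs_self _).trans hx
    rw [div_le_iff₀ (by positivity)]
    nlinarith
  have e5 : ∀ᶠ x : ℝ in atTop, 4 * (x * Real.log x) ≤ x ^ (2 - s / 4) := by
    have h := (isLittleO_log_rpow_atTop (show (0 : ℝ) < 1 - s / 4 by linarith)).bound
      (show (0 : ℝ) < 1 / 4 by norm_num)
    filter_upwards [h, eventually_gt_atTop 0, hl1] with x hx hx0 hx1
    rw [Real.norm_eq_abs, Real.norm_eq_abs, abs_of_pos (show 0 < Real.log x by linarith),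
      abs_of_pos (Real.rpow_pos_of_pos hx0 _)] at hx
    have h3 : x ^ (2 - s / 4) = x * x ^ (1 - s / 4) := by
      rw [show (2 - s / 4 : ℝ) = 1 + (1 - s / 4) by ring, Real.rpow_add hx0, Real.rpow_one]
    rw [h3]
    nlinarith
  have e6 : ∀ᶠ x : ℝ in atTop, 4 * (x * Real.log x) ≤ x ^ 2 := by
    have h := Real.isLittleO_log_id_atTop.bound (show (0 : ℝ) < 1 / 4 by norm_num)
    filter_upwards [h, eventually_gt_atTop 0, hl1] with x hx hx0 hx1
    rw [Real.norm_eq_abs, id, Real.norm_eq_abs, abs_of_pos (show 0 < Real.log x by linarith),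
      abs_of_pos hx0] at hx
    nlinarith
  have e7 : ∀ᶠ x : ℝ in atTop, x ^ 4 ≤ Real.exp (x ^ (1 - s)) := by
    have h := ((tendsto_exp_div_rpow_atTop (4 / (1 - s))).comp
      (tendsto_rpow_atTop (show (0 : ℝ) < 1 - s by linarith))).eventually_ge_atTop 1
    filter_upwards [h, eventually_gt_atTop 0] with x hx hx0
    simp only [Function.comp_apply] at hx
    have h2 : (x ^ (1 - s)) ^ (4 / (1 - s)) = x ^ 4 := by
      rw [← Real.rpow_mul hx0.le]
      have : (1 - s) * (4 / (1 - s)) = 4 := by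
        have : (1 - s : ℝ) ≠ 0 := by linarith
        field_simp
      rw [this]
      norm_cast
    rw [h2, one_le_div (by positivity)] at hx
    exact hx
  have e8 : ∀ᶠ x : ℝ in atTop, 2 ≤ θ * x := by
    filter_upwards [eventually_ge_atTop (2 / θ)] with x hx
    rw [div_le_iff₀ hθ] at hx
    linarith
  have e9 : ∀ᶠ x : ℝ in atTop, 80 * x ^ 4 ≤ Real.exp (6 / 100 * x) := by
    have h := (tendsto_exp_mul_div_rpow_atTop 4 (6 / 100) (by norm_num)).eventually_ge_atTop 80
    filter_upwards [h, eventually_gt_atTop 0] with x hx hx0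
    have h2 : x ^ (4 : ℝ) = x ^ 4 := by norm_cast
    rw [h2, le_div_iff₀ (by positivity)] at hx
    exact hx
  have e10 : ∀ᶠ x : ℝ in atTop, Real.log ((1 + s) / θ) ≤ 1 / 5 * Real.log (Real.log x) := by
    filter_upwards [ev_loglog.eventually_ge_atTop (5 * Real.log ((1 + s) / θ))] with x hx
    linarith
  have e11 : ∀ᶠ x : ℝ in atTop, 300 ≤ x ^ (2 * s / 3) :=
    (tendsto_rpow_atTop (show (0 : ℝ) < 2 * s / 3 by positivity)).eventually_ge_atTop 300
  have e12 : ∀ᶠ x : ℝ in atTop, 1 ≤ s / 4 * (x * Real.log x) := by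
    filter_upwards [eventually_ge_atTop (4 / s), hl1] with x hx hx1
    rw [div_le_iff₀ hs] at hx
    have h0 : 0 < x := by
      by_contra h
      push Not at h
      nlinarith
    have : x * 1 ≤ x * Real.log x := mul_le_mul_of_nonneg_left hx1 h0.le
    nlinarith
  have e13 : ∀ᶠ x : ℝ in atTop, 10 + 4 * Real.log x ≤ x := by
    have h := Real.isLittleO_log_id_atTop.bound (show (0 : ℝ) < 1 / 8 by norm_num)
    filter_upwards [h, eventually_ge_atTop 20, hl1] with x hx hx0 hx1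
    rw [Real.norm_eq_abs, id, Real.norm_eq_abs, abs_of_pos (show 0 < Real.log x by linarith),
      abs_of_pos (by linarith : (0 : ℝ) < x)] at hx
    linarith
  have e14 : ∀ᶠ x : ℝ in atTop, 1 ≤ x ^ (1 - s) :=
    (tendsto_rpow_atTop (show (0 : ℝ) < 1 - s by linarith)).eventually_ge_atTop 1
  filter_upwards [eventually_ge_atTop 3, hl1, ev_loglog.eventually_gt_atTop 0, e4, e5, e6, e7, e8,
    e9, e10, e11, e12, e13, e14] with x h1 h2 h3 h4 h5 h6 h7 h8 h9 h10 h11 h12 h13 h14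
  exact ⟨h1, h2, h3, h4, h5, h6, h7, h8, h9, h10, h11, h12, h13, h14⟩

end Pool.Agent.Iso
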