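import Mathlib

/-!
# Two constants theorem along a chain of discs

If a function on the real line extends to bounded holomorphic functions on the discs of relative
radius `κ` centred on a real interval, and is very small on a first short interval, then it is small
on the next intervals of a geometric progression.
-/

set_option autoImplicit false

namespace Pool.Agent.Iso

open Complex Complex.HadamardThreeLines Metric Set

/-- Three lines theorem in the variable `m + σ r cosh s`. -/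
theorem three (σ m r R M δ y t : ℝ) (hσ : σ = 1 ∨ σ = -1) (hr : 0 < r) (ht : 0 < t)
    (hR : r * Real.cosh t < R) (D : ℂ → ℂ)
    (hD : DifferentiableOn ℂ D (ball (m : ℂ) R)) (hM : ∀ z ∈ ball (m : ℂ) R, ‖D z‖ ≤ M)
    (hδ : ∀ x : ℝ, |x - m| ≤ r → ‖D x‖ ≤ δ) (hy : 0 ≤ y) (hyt : y ≤ t) :
    ‖D ((m + σ * r * Real.cosh y : ℝ) : ℂ)‖ ≤ δ ^ (1 - y / t) * M ^ (y / t) := by
  have hσ1 : |σ| = 1 := by
    rcases hσ with h | h <;> rw [h] <;> simp
  -- the map sends the closed strip to the disc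
  have hmap : ∀ s : ℂ, 0 ≤ s.re → s.re ≤ t →
      (m : ℂ) + (σ * r : ℝ) * Complex.cosh s ∈ ball (m : ℂ) R := by
    intro s h0 h1
    rw [mem_ball, dist_eq_norm, add_sub_cancel_left, norm_mul, Complex.norm_real,
      Real.norm_eq_abs, abs_mul, hσ1, one_mul, abs_of_pos hr]
    have h2 : ‖Complex.cosh s‖ ≤ Real.cosh s.re := by
      unfold Complex.cosh
      rw [norm_div, Real.cosh_eq]
      have h3 : ‖Complex.exp s + Complex.exp (-s)‖ ≤ Real.exp s.re + Real.exp (-s.re) := by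
        refine (norm_add_le _ _).trans (le_of_eq ?_)
        rw [Complex.norm_exp, Complex.norm_exp, Complex.neg_re]
      simpa using div_le_div_of_nonneg_right h3 (by norm_num : (0 : ℝ) ≤ 2)
    have h4 : Real.cosh s.re ≤ Real.cosh t := by
      rw [Real.cosh_le_cosh, abs_of_nonneg h0, abs_of_pos ht]
      exact h1
    calc r * ‖Complex.cosh s‖ ≤ r * Real.cosh t :=
          mul_le_mul_of_nonneg_left (h2.trans h4) hr.le
      _ < R := hR
  obtain ⟨f, hf⟩ : ∃ f : ℂ → ℂ, f = fun s => D ((m : ℂ) + (σ * r : ℝ) * Complex.cosh s) :=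
    ⟨_, rfl⟩
  have hcl : closure (verticalStrip 0 t) ⊆ verticalClosedStrip 0 t := by
    refine closure_minimal ?_ ?_
    · exact preimage_mono Ioo_subset_Icc_self
    · exact isClosed_Icc.preimage Complex.continuous_re
  have hdiff : DiffContOnCl ℂ f (verticalStrip 0 t) := by
    refine DifferentiableOn.diffContOnCl fun s hs => ?_
    have h1 := hcl hs
    have h2 := hmap s h1.1 h1.2
    have h3 : DifferentiableAt ℂ D ((m : ℂ) + (σ * r : ℝ) * Complex.cosh s) :=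
      hD.differentiableAt (isOpen_ball.mem_nhds h2)
    rw [hf]
    refine DifferentiableAt.differentiableWithinAt ?_
    exact h3.comp s (by fun_prop : DifferentiableAt ℂ
      (fun s : ℂ => (m : ℂ) + (σ * r : ℝ) * Complex.cosh s) s)
  have h := norm_le_interp_of_mem_verticalClosedStrip' (f := f) (z := (y : ℂ)) (a := δ) (b := M)
    ht (by constructor <;> simpa) hdiff ?_ ?_ ?_
  · simp only [Complex.ofReal_re, sub_zero] at h
    rw [hf] at h
    simpa [Complex.ofReal_cosh] using h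
  · refine ⟨M, ?_⟩
    rintro _ ⟨s, hs, rfl⟩
    rw [Function.comp_apply, hf]
    exact hM _ (hmap s hs.1 hs.2)
  · intro s hs
    have h1 : s.re = 0 := hs
    have h2 : s = (s.im : ℂ) * I := by
      apply Complex.ext <;> simp [h1]
    have h3 : (m : ℂ) + (σ * r : ℝ) * Complex.cosh s = ((m + σ * r * Real.cos s.im : ℝ) : ℂ) := by
      rw [h2, Complex.cosh_mul_I]
      push_cast
      simp
    rw [hf]
    simp only
    rw [h3]
    refine hδ _ ?_
    rw [add_sub_cancel_left, abs_mul, abs_mul, hσ1, one_mul, abs_of_pos hr]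
    exact mul_le_of_le_one_right hr.le (Real.abs_cos_le_one _)
  · intro s hs
    have h1 : s.re = t := hs
    rw [hf]
    exact hM _ (hmap s (by rw [h1]; exact ht.le) h1.le)

/-- Two constants theorem: from the segment of length `2 r` to the one of length `8 r`. -/
theorem two (m r R M δ : ℝ) (hr : 0 < r) (hR : 31 * r < R) (hδ0 : 0 < δ) (hδM : δ ≤ M) (D : ℂ → ℂ)
    (hD : DifferentiableOn ℂ D (ball (m : ℂ) R)) (hM : ∀ z ∈ ball (m : ℂ) R, ‖D z‖ ≤ M)
    (hδ : ∀ x : ℝ, |x - m| ≤ r → ‖D x‖ ≤ δ) (x : ℝ) (hx : |x - m| ≤ 4 * r) :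
    ‖D x‖ ≤ (δ * M) ^ (1 / 2 : ℝ) := by
  have hM0 : 0 < M := hδ0.trans_le hδM
  have hsq : δ ≤ (δ * M) ^ (1 / 2 : ℝ) := by
    rw [← Real.sqrt_eq_rpow]
    exact Real.le_sqrt_of_sq_le (by nlinarith)
  rcases le_or_gt |x - m| r with h | h
  · exact (hδ x h).trans hsq
  obtain ⟨u, hu⟩ : ∃ u, u = |x - m| / r := ⟨_, rfl⟩
  have hu1 : 1 < u := by rw [hu, one_lt_div hr]; exact h
  have hu4 : u ≤ 4 := by rw [hu, div_le_iff₀ hr]; exact hx
  obtain ⟨y, hy⟩ : ∃ y, y = Real.arsinh (√(u ^ 2 - 1)) := ⟨_, rfl⟩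
  obtain ⟨v, hv⟩ : ∃ v, v = Real.arsinh (√15) := ⟨_, rfl⟩
  have hcy : Real.cosh y = u := by
    rw [hy, Real.cosh_arsinh, Real.sq_sqrt (by nlinarith), add_sub_cancel,
      Real.sqrt_sq (by linarith)]
  have hcv : Real.cosh v = 4 := by
    rw [hv, Real.cosh_arsinh, Real.sq_sqrt (by norm_num)]
    rw [show (1 + 15 : ℝ) = 4 ^ 2 by norm_num, Real.sqrt_sq (by norm_num)]
  have hc2v : Real.cosh (2 * v) = 31 := by
    rw [Real.cosh_two_mul, Real.sinh_sq, hcv]
    norm_num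
  have hy0 : 0 ≤ y := by
    rw [hy]
    exact Real.arsinh_nonneg_iff.2 (Real.sqrt_nonneg _)
  have hyv : y ≤ v := by
    rw [hy, hv]
    exact Real.arsinh_le_arsinh.2 (Real.sqrt_le_sqrt (by nlinarith))
  have hv0 : 0 < v := by
    rw [hv]
    exact Real.arsinh_pos_iff.2 (Real.sqrt_pos.2 (by norm_num))
  obtain ⟨σ, hσ, hσx⟩ : ∃ σ : ℝ, (σ = 1 ∨ σ = -1) ∧ m + σ * r * Real.cosh y = x := by
    rcases le_total 0 (x - m) with h1 | h1
    · refine ⟨1, Or.inl rfl, ?_⟩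
      rw [hcy, hu, abs_of_nonneg h1]
      field_simp
      ring
    · refine ⟨-1, Or.inr rfl, ?_⟩
      rw [hcy, hu, abs_of_nonpos h1]
      field_simp
      ring
  have h1 := three σ m r R M δ y (2 * v) hσ hr (by linarith) (by rw [hc2v]; linarith) D hD hM hδ
    hy0 (by linarith)
  rw [hσx] at h1
  refine h1.trans ?_
  have hp : y / (2 * v) ≤ 1 / 2 := by
    rw [div_le_div_iff₀ (by linarith) (by norm_num)]
    linarith
  have hp0 : 0 ≤ y / (2 * v) := by positivity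
  obtain ⟨p, hp'⟩ : ∃ p, p = y / (2 * v) := ⟨_, rfl⟩
  rw [← hp'] at hp hp0 ⊢
  have h2 : δ ^ (1 - p) * M ^ p = δ * (M / δ) ^ p := by
    rw [Real.rpow_sub hδ0, Real.rpow_one, Real.div_rpow hM0.le hδ0.le]
    ring
  have h3 : (δ * M) ^ (1 / 2 : ℝ) = δ * (M / δ) ^ (1 / 2 : ℝ) := by
    have h4 : δ * M = δ ^ 2 * (M / δ) := by
      field_simp
    rw [h4, Real.mul_rpow (by positivity) (by positivity), ← Real.sqrt_eq_rpow (δ ^ 2),
      Real.sqrt_sq hδ0.le]
  rw [h2, h3]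
  refine mul_le_mul_of_nonneg_left ?_ hδ0.le
  exact Real.rpow_le_rpow_of_exponent_le (by rw [le_div_iff₀ hδ0]; linarith) hp

/-- The chain. -/
theorem chain (x0 κ M δ : ℝ) (hx0 : 0 < x0) (hκ : 0 < κ) (hκ1 : κ ≤ 1) (hδ0 : 0 < δ)
    (hδM : δ ≤ M) (h : ℝ → ℂ) (n : ℕ)
    (hD : ∀ j : ℕ, j < n → ∀ m : ℝ, m = x0 * (1 + κ / 16) ^ j * (1 + κ / 32) →
      ∃ D : ℂ → ℂ, DifferentiableOn ℂ D (ball (m : ℂ) (κ * m)) ∧
        (∀ z ∈ ball (m : ℂ) (κ * m), ‖D z‖ ≤ M) ∧
        ∀ y : ℝ, |y - m| < κ * m → D y = h y)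
    (h0 : ∀ y : ℝ, x0 ≤ y → y ≤ x0 * (1 + κ / 16) → ‖h y‖ ≤ δ) :
    ∀ j : ℕ, j ≤ n → ∀ y : ℝ, x0 * (1 + κ / 16) ^ j ≤ y → y ≤ x0 * (1 + κ / 16) ^ (j + 1) →
      ‖h y‖ ≤ M * (δ / M) ^ ((1 / 2 : ℝ) ^ j) := by
  have hM0 : 0 < M := hδ0.trans_le hδM
  intro j
  induction j with
  | zero =>
    intro _ y h1 h2
    rw [pow_zero, mul_one] at h1
    rw [zero_add, pow_one] at h2
    rw [pow_zero, Real.rpow_one, mul_div_cancel₀ _ hM0.ne']
    exact h0 y h1 h2
  | succ j ih =>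
    intro hj y h1 h2
    have ih' := ih (by omega)
    obtain ⟨x, hx⟩ : ∃ x, x = x0 * (1 + κ / 16) ^ j := ⟨_, rfl⟩
    have hxp : 0 < x := by rw [hx]; positivity
    obtain ⟨D, d1, d2, d3⟩ := hD j (by omega) _ rfl
    have e1 : x0 * (1 + κ / 16) ^ (j + 1) = x * (1 + κ / 16) := by rw [hx]; ring
    have e2 : x0 * (1 + κ / 16) ^ (j + 1 + 1) = x * (1 + κ / 16) ^ 2 := by rw [hx]; ring
    rw [e1] at h1 ih'
    rw [e2] at h2
    rw [← hx] at ih' d1 d2 d3
    obtain ⟨m, hm⟩ : ∃ m, m = x * (1 + κ / 32) := ⟨_, rfl⟩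
    rw [← hm] at d1 d2 d3
    obtain ⟨δ', hδ'⟩ : ∃ δ', δ' = M * (δ / M) ^ ((1 / 2 : ℝ) ^ j) := ⟨_, rfl⟩
    rw [← hδ'] at ih'
    have hq0 : 0 < δ / M := div_pos hδ0 hM0
    have hq1 : δ / M ≤ 1 := by rw [div_le_one hM0]; exact hδM
    have hδ'0 : 0 < δ' := by rw [hδ']; exact mul_pos hM0 (Real.rpow_pos_of_pos hq0 _)
    have hδ'M : δ' ≤ M := by
      rw [hδ']
      exact mul_le_of_le_one_right hM0.le (Real.rpow_le_one hq0.le hq1 (by positivity))
    have hxκ : 0 < x * κ := mul_pos hxp hκ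
    have hxκ2 : x * κ * κ ≤ x * κ := mul_le_of_le_one_right hxκ.le hκ1
    have hRR : 31 * (x * κ / 32) < κ * m := by
      rw [hm]
      nlinarith
    have h3 := two m (x * κ / 32) (κ * m) M δ' (by positivity) hRR hδ'0 hδ'M D d1 d2 ?_ y ?_
    · have h4 : |y - m| < κ * m := by
        rw [hm, abs_lt]
        constructor <;> nlinarith
      rw [d3 y h4] at h3
      refine h3.trans (le_of_eq ?_)
      rw [hδ', show M * (δ / M) ^ ((1 / 2 : ℝ) ^ j) * M = M ^ 2 * (δ / M) ^ ((1 / 2 : ℝ) ^ j) by ring,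
        Real.mul_rpow (by positivity) (Real.rpow_nonneg hq0.le _), ← Real.rpow_mul hq0.le,
        ← Real.sqrt_eq_rpow (M ^ 2), Real.sqrt_sq hM0.le, pow_succ]
    · intro z hz
      have h4 : |z - m| < κ * m := by
        refine hz.trans_lt ?_
        nlinarith
      rw [d3 z h4]
      rw [hm, abs_le] at hz
      refine ih' z ?_ ?_ <;> nlinarith
    · rw [hm, abs_le]
      constructor <;> nlinarith

end Pool.Agent.Iso
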